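import Mathlib

/-!
A linear algebra lemma: supports of the vectors of a space in which the dimensions of the
coordinate subspaces are small (module B3 of helper38's Theorem G, `MP_7ecdd4_nt`).
-/

set_option autoImplicit false

open Finset

namespace Pool.Agent.H99.AG

section

variable {K : Type} [Field K] {J : Type}

/-- the vectors supported in `Q` -/
def SQ (K : Type) [Field K] {J : Type} (Q : Finset J) : Submodule K (J → K) where
  carrier := {v | ∀ p, p ∉ Q → v p = 0}
  add_mem' := by
    intro a b ha hb p hp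
    show a p + b p = 0
    rw [ha p hp, hb p hp, add_zero]
  zero_mem' := fun _ _ => rfl
  smul_mem' := by
    intro c a ha p hp
    show c * a p = 0
    rw [ha p hp, mul_zero]

theorem mem_SQ (Q : Finset J) (v : J → K) : v ∈ SQ K Q ↔ ∀ p, p ∉ Q → v p = 0 := Iff.rfl

/-- the projection which forgets the coordinates in `Q` -/
def prQ (K : Type) [Field K] {J : Type} [DecidableEq J] (Q : Finset J) :
    (J → K) →ₗ[K] (J → K) where
  toFun v := fun p => if p ∈ Q then 0 else v p
  map_add' v w := by
    funext p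
    show (if p ∈ Q then (0 : K) else v p + w p)
      = (if p ∈ Q then 0 else v p) + (if p ∈ Q then 0 else w p)
    split_ifs <;> simp
  map_smul' c v := by
    funext p
    show (if p ∈ Q then (0 : K) else c * v p) = c * (if p ∈ Q then 0 else v p)
    split_ifs <;> simp

theorem prQ_apply [DecidableEq J] (Q : Finset J) (v : J → K) (p : J) :
    prQ K Q v p = if p ∈ Q then 0 else v p := rfl

theorem proj_mat [Fintype J] [DecidableEq J] (Λ : Submodule K (J → K)) (Q Q₀ : Finset J) :
    Module.finrank K ↥(Λ.map (prQ K Q₀) ⊓ SQ K Q) + Module.finrank K ↥(Λ ⊓ SQ K Q₀) ≤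
      Module.finrank K ↥(Λ ⊓ SQ K (Q ∪ Q₀)) := by
  set W := Λ ⊓ SQ K (Q ∪ Q₀) with hW
  have h1 := LinearMap.finrank_range_add_finrank_ker ((prQ K Q₀).domRestrict W)
  have h2 : Λ.map (prQ K Q₀) ⊓ SQ K Q ≤ LinearMap.range ((prQ K Q₀).domRestrict W) := by
    rintro v' ⟨⟨v, hv, rfl⟩, hv'⟩
    have hvW : v ∈ W := by
      refine ⟨hv, ?_⟩
      intro p hp
      rw [Finset.mem_union, not_or] at hp
      have := hv' p hp.1
      rw [prQ_apply, if_neg hp.2] at this
      exact this
    exact ⟨⟨v, hvW⟩, rfl⟩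
  have h3 : (Λ ⊓ SQ K Q₀).comap W.subtype ≤ LinearMap.ker ((prQ K Q₀).domRestrict W) := by
    intro x hx
    rw [LinearMap.mem_ker]
    funext p
    show prQ K Q₀ x.1 p = 0
    rw [prQ_apply]
    split_ifs with hp
    · rfl
    · exact hx.2 p hp
  have hle : Λ ⊓ SQ K Q₀ ≤ W := by
    intro v hv
    refine ⟨hv.1, fun p hp => hv.2 p ?_⟩
    rw [Finset.mem_union, not_or] at hp
    exact hp.2
  have h4 : Module.finrank K ↥((Λ ⊓ SQ K Q₀).comap W.subtype)
      = Module.finrank K ↥(Λ ⊓ SQ K Q₀) :=
    (Submodule.comapSubtypeEquivOfLe hle).finrank_eq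
  have h5 := Submodule.finrank_mono h2
  have h6 := Submodule.finrank_mono h3
  omega

/-- a small determining set of small weight -/
theorem basis_mat [Fintype J] (Λ : Submodule K (J → K)) (c : J → ℕ) (μ : J → ℝ)
    (hD : ∀ Q : Finset J, (Module.finrank K ↥(Λ ⊓ SQ K Q) : ℝ) ≤ ∑ p ∈ Q, μ p) :
    ∃ Z : Finset J, (∀ v ∈ Λ, (∀ p ∈ Z, v p = 0) → v = 0) ∧
      (∑ p ∈ Z, (c p : ℝ)) ≤ ∑ p, μ p * c p := by
  classical
  set n := Fintype.card J with hn
  set e := Fintype.equivFin J with he
  set ρ : J → ℕ := fun p => c p * n + (e p).1 with hρ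
  have hρinj : ∀ p p', ρ p = ρ p' → p = p' := by
    intro p p' h
    have h1 : (e p).1 < n := (e p).2
    have h2 : (e p').1 < n := (e p').2
    have h3 : c p * n + (e p).1 = c p' * n + (e p').1 := h
    have h4 : (e p).1 = (e p').1 := by
      have := congrArg (fun z => z % n) h3
      simp only [Nat.mul_comm _ n, Nat.mul_add_mod, Nat.mod_eq_of_lt h1,
        Nat.mod_eq_of_lt h2] at this
      exact this
    exact e.injective (Fin.ext h4)
  have hρt : ∀ p t, (t + 1) * n ≤ ρ p ↔ t < c p := by
    intro p t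
    have h1 : (e p).1 < n := (e p).2
    show (t + 1) * n ≤ c p * n + (e p).1 ↔ t < c p
    constructor
    · intro h
      by_contra hcon
      have h2 : c p ≤ t := not_lt.1 hcon
      have h3 : c p * n ≤ t * n := Nat.mul_le_mul_right n h2
      have h4 : (t + 1) * n = t * n + n := by ring
      omega
    · intro h
      have h3 : (t + 1) * n ≤ c p * n := Nat.mul_le_mul_right n h
      omega
  set Z : Finset J := univ.filter (fun p => ∃ v ∈ Λ, v p ≠ 0 ∧ ∀ p', ρ p' < ρ p → v p' = 0)
    with hZ
  refine ⟨Z, ?_, ?_⟩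
  · intro v hv hvZ
    by_contra hne
    have hS : (univ.filter (fun p => v p ≠ 0)).Nonempty := by
      by_contra hcon
      rw [Finset.not_nonempty_iff_eq_empty] at hcon
      apply hne
      funext p
      by_contra hp
      have : p ∈ univ.filter (fun p => v p ≠ 0) := by
        rw [Finset.mem_filter]
        exact ⟨Finset.mem_univ _, hp⟩
      rw [hcon] at this
      exact absurd this (Finset.notMem_empty p)
    obtain ⟨p, hp, hmin⟩ := Finset.exists_min_image _ ρ hS
    rw [Finset.mem_filter] at hp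
    apply hp.2
    apply hvZ
    rw [hZ, Finset.mem_filter]
    refine ⟨Finset.mem_univ _, v, hv, hp.2, ?_⟩
    intro p' hp'
    by_contra hcon
    have := hmin p' (by rw [Finset.mem_filter]; exact ⟨Finset.mem_univ _, hcon⟩)
    omega
  · -- the number of elements above a threshold
    obtain ⟨M, hM⟩ : ∃ M, ∀ p, ρ p < M := by
      refine ⟨∑ p, (ρ p + 1), fun p => ?_⟩
      have := Finset.single_le_sum (f := fun p => ρ p + 1) (fun i _ => Nat.zero_le _)
        (Finset.mem_univ p)
      exact this
    have key : ∀ k m, M ≤ m + k → (Z.filter (fun p => m ≤ ρ p)).card ≤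
        Module.finrank K ↥(Λ ⊓ SQ K (univ.filter (fun p => m ≤ ρ p))) := by
      intro k
      induction k with
      | zero =>
          intro m hm
          have : Z.filter (fun p => m ≤ ρ p) = ∅ := by
            rw [Finset.filter_eq_empty_iff]
            intro p _ hp
            have := hM p
            omega
          rw [this]
          simp
      | succ k ih =>
          intro m hm
          have h1 := ih (m + 1) (by omega)
          have hle : Λ ⊓ SQ K (univ.filter (fun p => m + 1 ≤ ρ p)) ≤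
              Λ ⊓ SQ K (univ.filter (fun p => m ≤ ρ p)) := by
            intro v hv
            refine ⟨hv.1, fun p hp => hv.2 p ?_⟩
            intro hcon
            apply hp
            rw [Finset.mem_filter] at hcon ⊢
            exact ⟨Finset.mem_univ _, by omega⟩
          by_cases hex : ∃ p ∈ Z, ρ p = m
          · obtain ⟨p, hpZ, hpm⟩ := hex
            have hsub : Z.filter (fun p => m ≤ ρ p) ⊆
                insert p (Z.filter (fun p => m + 1 ≤ ρ p)) := by
              intro p' hp'
              rw [Finset.mem_filter] at hp'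
              rw [Finset.mem_insert, Finset.mem_filter]
              by_cases h : ρ p' = m
              · left
                exact hρinj p' p (by rw [h, hpm])
              · right
                exact ⟨hp'.1, by omega⟩
            have hcard := (Finset.card_le_card hsub).trans (Finset.card_insert_le _ _)
            have hlt : Λ ⊓ SQ K (univ.filter (fun p => m + 1 ≤ ρ p)) <
                Λ ⊓ SQ K (univ.filter (fun p => m ≤ ρ p)) := by
              refine lt_of_le_of_ne hle ?_
              intro heq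
              rw [hZ, Finset.mem_filter] at hpZ
              obtain ⟨_, v, hv, hvp, hvlt⟩ := hpZ
              have hv1 : v ∈ Λ ⊓ SQ K (univ.filter (fun p => m ≤ ρ p)) := by
                refine ⟨hv, fun p' hp' => hvlt p' ?_⟩
                by_contra hcon
                apply hp'
                rw [Finset.mem_filter]
                exact ⟨Finset.mem_univ _, by omega⟩
              rw [← heq] at hv1
              apply hvp
              apply hv1.2 p
              rw [Finset.mem_filter]
              rintro ⟨_, h⟩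
              omega
            have := Submodule.finrank_lt_finrank_of_lt hlt
            omega
          · have hsub : Z.filter (fun p => m ≤ ρ p) ⊆ Z.filter (fun p => m + 1 ≤ ρ p) := by
              intro p' hp'
              rw [Finset.mem_filter] at hp' ⊢
              refine ⟨hp'.1, ?_⟩
              by_contra hcon
              exact hex ⟨p', hp'.1, by omega⟩
            exact (Finset.card_le_card hsub).trans (h1.trans (Submodule.finrank_mono hle))
    obtain ⟨T, hT⟩ : ∃ T, ∀ p, c p ≤ T :=
      ⟨∑ p, c p, fun p => Finset.single_le_sum (fun i _ => Nat.zero_le _) (Finset.mem_univ p)⟩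
    have hc : ∀ p, (c p : ℝ) = ∑ t ∈ range T, (if t < c p then (1 : ℝ) else 0) := by
      intro p
      rw [← Finset.sum_filter, Finset.sum_const, nsmul_eq_mul, mul_one]
      have : (range T).filter (fun t => t < c p) = range (c p) := by
        ext t
        rw [Finset.mem_filter, Finset.mem_range, Finset.mem_range]
        have := hT p
        constructor
        · exact fun h => h.2
        · exact fun h => ⟨by omega, h⟩
      rw [this, Finset.card_range]
    have hthr : ∀ t, ((Z.filter (fun p => t < c p)).card : ℝ) ≤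
        ∑ p, μ p * (if t < c p then (1 : ℝ) else 0) := by
      intro t
      have h1 := key M ((t + 1) * n) (by omega)
      have e1 : Z.filter (fun p => (t + 1) * n ≤ ρ p) = Z.filter (fun p => t < c p) :=
        Finset.filter_congr (fun p _ => hρt p t)
      have e2 : univ.filter (fun p => (t + 1) * n ≤ ρ p) = univ.filter (fun p => t < c p) :=
        Finset.filter_congr (fun p _ => hρt p t)
      rw [e1, e2] at h1
      have h2 := hD (univ.filter (fun p => t < c p))
      have h3 : ((Z.filter (fun p => t < c p)).card : ℝ) ≤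
          ∑ p ∈ univ.filter (fun p => t < c p), μ p :=
        le_trans (by exact_mod_cast h1) h2
      refine h3.trans (le_of_eq ?_)
      rw [Finset.sum_filter]
      apply Finset.sum_congr rfl
      intro p _
      split_ifs <;> simp
    calc (∑ p ∈ Z, (c p : ℝ)) = ∑ p ∈ Z, ∑ t ∈ range T, (if t < c p then (1 : ℝ) else 0) :=
          Finset.sum_congr rfl (fun p _ => hc p)
      _ = ∑ t ∈ range T, ∑ p ∈ Z, (if t < c p then (1 : ℝ) else 0) := Finset.sum_comm
      _ = ∑ t ∈ range T, ((Z.filter (fun p => t < c p)).card : ℝ) := by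
          apply Finset.sum_congr rfl
          intro t _
          rw [← Finset.sum_filter, Finset.sum_const, nsmul_eq_mul, mul_one]
      _ ≤ ∑ t ∈ range T, ∑ p, μ p * (if t < c p then (1 : ℝ) else 0) :=
          Finset.sum_le_sum (fun t _ => hthr t)
      _ = ∑ p, ∑ t ∈ range T, μ p * (if t < c p then (1 : ℝ) else 0) := Finset.sum_comm
      _ = ∑ p, μ p * c p := by
          apply Finset.sum_congr rfl
          intro p _
          rw [← Finset.mul_sum, ← hc p]

/-- a set of coordinates is determined by few of them -/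
theorem flat_mat (N : Finset J) [DecidableEq J] [Fintype J] :
    ∀ (k : ℕ) (E : Submodule K (J → K)), Module.finrank K E ≤ k →
    ∃ B : Finset J, B ⊆ N ∧ B.card ≤ k ∧
      ∀ w ∈ E, (∀ p ∈ B, w p = 0) → ∀ p ∈ N, w p = 0 := by
  intro k
  induction k with
  | zero =>
      intro E hE
      refine ⟨∅, Finset.empty_subset _, by simp, ?_⟩
      intro w hw _ p _
      have h0 : Module.finrank K E = 0 := by omega
      have h1 : E = ⊥ := Submodule.finrank_eq_zero.1 h0
      rw [h1, Submodule.mem_bot] at hw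
      rw [hw]
      rfl
  | succ k ih =>
      intro E hE
      by_cases hvan : ∀ w ∈ E, ∀ p ∈ N, w p = 0
      · exact ⟨∅, Finset.empty_subset _, by simp, fun w hw _ p hp => hvan w hw p hp⟩
      · push Not at hvan
        obtain ⟨w₀, hw₀, p₀, hp₀, hne⟩ := hvan
        set E' : Submodule K (J → K) := E ⊓ LinearMap.ker (LinearMap.proj p₀ : (J → K) →ₗ[K] K)
          with hE'
        have hlt : E' < E := by
          refine lt_of_le_of_ne inf_le_left ?_
          intro heq
          rw [← heq] at hw₀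
          exact hne (by simpa using hw₀.2)
        have h1 := Submodule.finrank_lt_finrank_of_lt hlt
        obtain ⟨B, hBN, hBc, hB⟩ := ih E' (by omega)
        refine ⟨insert p₀ B, ?_, ?_, ?_⟩
        · intro p hp
          rcases Finset.mem_insert.1 hp with rfl | hp
          · exact hp₀
          · exact hBN hp
        · exact (Finset.card_insert_le _ _).trans (by omega)
        · intro w hw hwB p hp
          refine hB w ⟨hw, ?_⟩ (fun q hq => hwB q (Finset.mem_insert_of_mem hq)) p hp
          simpa using hwB p₀ (Finset.mem_insert_self _ _)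

theorem card_small_mat (J : Type) [Fintype J] [DecidableEq J] (k : ℕ) :
    (univ.filter (fun B : Finset J => B.card ≤ k)).card ≤ (Fintype.card J + 1) ^ k := by
  classical
  have h1 : (univ : Finset (Fin k → Option J)).card = (Fintype.card J + 1) ^ k := by
    rw [Finset.card_univ, Fintype.card_fun, Fintype.card_option, Fintype.card_fin]
  rw [← h1]
  apply Finset.card_le_card_of_surjOn
    (fun f : Fin k → Option J => univ.filter (fun x => ∃ i, f i = some x))
  intro B hB
  have hBk : B.card ≤ k := by simpa using hB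
  refine ⟨fun i => if h : i.1 < B.card then some (B.equivFin.symm ⟨i.1, h⟩).1 else none,
    by simp, ?_⟩
  ext x
  simp only [Finset.mem_filter, Finset.mem_univ, true_and]
  constructor
  · rintro ⟨i, hi⟩
    split_ifs at hi with h
    simp only [Option.some.injEq] at hi
    rw [← hi]
    exact (B.equivFin.symm ⟨i.1, h⟩).2
  · intro hx
    refine ⟨⟨(B.equivFin ⟨x, hx⟩).1, lt_of_lt_of_le (B.equivFin ⟨x, hx⟩).2 hBk⟩, ?_⟩
    rw [dif_pos (B.equivFin ⟨x, hx⟩).2]
    simp

/-- the number of supports of vectors in a space of small dimension -/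
theorem supp_count_mat [Fintype J] [DecidableEq J] (E : Submodule K (J → K)) (k : ℕ)
    (hk : Module.finrank K E ≤ k) (FF : Finset (Finset J))
    (hFF : ∀ R ∈ FF, ∃ v ∈ E, ∀ p, v p ≠ 0 ↔ p ∈ R) : FF.card ≤ (Fintype.card J + 1) ^ k := by
  classical
  have hex : ∀ R : Finset J, ∃ B : Finset J, B ⊆ Rᶜ ∧ B.card ≤ k ∧
      ∀ w ∈ E, (∀ p ∈ B, w p = 0) → ∀ p ∈ Rᶜ, w p = 0 := fun R => flat_mat Rᶜ k E hk
  choose B hBR hBk hB using hex
  refine le_trans ?_ (card_small_mat J k)
  apply Finset.card_le_card_of_injOn B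
  · intro R _
    simp [hBk R]
  · intro R hR R' hR' heq
    have hdet : ∀ R ∈ FF, ∀ p, p ∈ R ↔ ∃ w ∈ E, (∀ q ∈ B R, w q = 0) ∧ w p ≠ 0 := by
      intro R hR p
      constructor
      · intro hp
        obtain ⟨v, hv, hsup⟩ := hFF R hR
        refine ⟨v, hv, fun q hq => ?_, (hsup p).2 hp⟩
        by_contra hcon
        exact (Finset.mem_compl.1 (hBR R hq)) ((hsup q).1 hcon)
      · rintro ⟨w, hw, hwB, hwp⟩
        by_contra hcon
        exact hwp (hB R w hw hwB p (Finset.mem_compl.2 hcon))
    ext p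
    rw [hdet R hR p, hdet R' hR' p, heq]

end

/-- **MAT.** Let `Λ` be a space of vectors such that the subspace of the vectors supported in `Q`
has dimension at most `μ(Q) + b` for each `Q`. Then the supports `R` of vectors of `Λ` with
`μ(R) ≤ m` are few, up to their intersections with a set `Q₀` with `μ(Q₀) ≤ b`. -/
theorem mat {K : Type} [Field K] {J : Type} [Fintype J] [DecidableEq J]
    (Λ : Submodule K (J → K)) (μ : J → ℝ) (hμ : ∀ p, 0 ≤ μ p) (b m : ℝ) (hm : 0 ≤ m)
    (hD : ∀ Q : Finset J, (Module.finrank K ↥(Λ ⊓ SQ K Q) : ℝ) ≤ (∑ p ∈ Q, μ p) + b)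
    (FF : Finset (Finset J))
    (hFF : ∀ R ∈ FF, (∃ v ∈ Λ, ∀ p, v p ≠ 0 ↔ p ∈ R) ∧ (∑ p ∈ R, μ p) ≤ m) :
    ∃ Q₀ : Finset J, (∑ p ∈ Q₀, μ p) ≤ b ∧
      (FF.image (fun R => R \ Q₀)).card ≤ 2 * (Fintype.card J + 1) ^ (2 * ⌊4 * m⌋₊) := by
  classical
  obtain ⟨Q₀, _, hmax⟩ := Finset.exists_max_image (univ : Finset (Finset J))
    (fun Q => (Module.finrank K ↥(Λ ⊓ SQ K Q) : ℝ) - 2 * ∑ p ∈ Q, μ p) ⟨∅, Finset.mem_univ _⟩
  have hQ0 : 2 * (∑ p ∈ Q₀, μ p) ≤ (Module.finrank K ↥(Λ ⊓ SQ K Q₀) : ℝ) := by
    have h1 := hmax ∅ (Finset.mem_univ _)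
    simp only [Finset.sum_empty, mul_zero, sub_zero] at h1
    have h2 : (0 : ℝ) ≤ (Module.finrank K ↥(Λ ⊓ SQ K (∅ : Finset J)) : ℝ) := Nat.cast_nonneg _
    linarith
  refine ⟨Q₀, by linarith [hD Q₀], ?_⟩
  set Λ' := Λ.map (prQ K Q₀) with hΛ'
  have hD' : ∀ Q : Finset J, (Module.finrank K ↥(Λ' ⊓ SQ K Q) : ℝ) ≤ ∑ p ∈ Q, 2 * μ p := by
    intro Q
    have h1 := proj_mat Λ Q Q₀
    have h2 := hmax (Q ∪ Q₀) (Finset.mem_univ _)
    have h3 : (∑ p ∈ Q ∪ Q₀, μ p) ≤ (∑ p ∈ Q, μ p) + ∑ p ∈ Q₀, μ p := by
      have := Finset.sum_union_inter (s₁ := Q) (s₂ := Q₀) (f := μ)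
      have h4 : 0 ≤ ∑ p ∈ Q ∩ Q₀, μ p := Finset.sum_nonneg (fun p _ => hμ p)
      linarith
    have h5 : (Module.finrank K ↥(Λ' ⊓ SQ K Q) : ℝ) + (Module.finrank K ↥(Λ ⊓ SQ K Q₀) : ℝ) ≤
        (Module.finrank K ↥(Λ ⊓ SQ K (Q ∪ Q₀)) : ℝ) := by exact_mod_cast h1
    rw [← Finset.mul_sum]
    linarith
  set FF' := FF.image (fun R => R \ Q₀) with hFF'
  have hsup' : ∀ R' ∈ FF', (∃ v ∈ Λ', ∀ p, v p ≠ 0 ↔ p ∈ R') ∧ (∑ p ∈ R', μ p) ≤ m := by
    intro R' hR'
    obtain ⟨R, hR, rfl⟩ := Finset.mem_image.1 hR'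
    obtain ⟨⟨v, hv, hsup⟩, hmR⟩ := hFF R hR
    refine ⟨⟨prQ K Q₀ v, ⟨v, hv, rfl⟩, ?_⟩, ?_⟩
    · intro p
      rw [prQ_apply, Finset.mem_sdiff, ← hsup p]
      split_ifs with h
      · simp [h]
      · simp [h]
    · exact (Finset.sum_le_sum_of_subset_of_nonneg Finset.sdiff_subset
        (fun p _ _ => hμ p)).trans hmR
  set c : J → ℕ := fun p => (FF'.filter (fun R' => p ∈ R')).card with hc
  obtain ⟨Z, hZdet, hZc⟩ := basis_mat Λ' c (fun p => 2 * μ p) hD'
  -- double counting
  have hdc1 : (∑ p ∈ Z, (c p : ℝ)) = ∑ R' ∈ FF', ((R' ∩ Z).card : ℝ) := by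
    have e1 : ∀ p ∈ Z, (c p : ℝ) = ∑ R' ∈ FF', (if p ∈ R' then (1 : ℝ) else 0) := by
      intro p _
      rw [← Finset.sum_filter, Finset.sum_const, nsmul_eq_mul, mul_one]
    rw [Finset.sum_congr rfl e1, Finset.sum_comm]
    apply Finset.sum_congr rfl
    intro R' _
    rw [← Finset.sum_filter, Finset.sum_const, nsmul_eq_mul, mul_one]
    congr 2
    ext p
    simp only [Finset.mem_filter, Finset.mem_inter]
    tauto
  have hdc2 : (∑ p, 2 * μ p * (c p : ℝ)) = ∑ R' ∈ FF', 2 * ∑ p ∈ R', μ p := by
    have e1 : ∀ p ∈ (univ : Finset J), 2 * μ p * (c p : ℝ) =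
        ∑ R' ∈ FF', (if p ∈ R' then 2 * μ p else 0) := by
      intro p _
      rw [← Finset.sum_filter, Finset.sum_const, nsmul_eq_mul, mul_comm]
    rw [Finset.sum_congr rfl e1, Finset.sum_comm]
    apply Finset.sum_congr rfl
    intro R' _
    rw [← Finset.sum_filter, Finset.mul_sum]
    apply Finset.sum_congr
    · ext p
      simp
    · intro p _
      rfl
  have hdc3 : (∑ p, 2 * μ p * (c p : ℝ)) ≤ FF'.card * (2 * m) := by
    rw [hdc2, ← nsmul_eq_mul, ← Finset.sum_const]
    apply Finset.sum_le_sum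
    intro R' hR'
    linarith [(hsup' R' hR').2]
  have hav : ∑ R' ∈ FF', ((R' ∩ Z).card : ℝ) ≤ FF'.card * (2 * m) := by
    rw [← hdc1]
    exact hZc.trans hdc3
  set k := ⌊4 * m⌋₊ with hk
  set G := FF'.filter (fun R' => (R' ∩ Z).card ≤ k) with hG
  set Bd := FF'.filter (fun R' => ¬ (R' ∩ Z).card ≤ k) with hBd
  have hsplit : G.card + Bd.card = FF'.card := Finset.card_filter_add_card_filter_not _
  have hBdsum : (Bd.card : ℝ) * (4 * m) ≤ ∑ R' ∈ Bd, ((R' ∩ Z).card : ℝ) := by
    rw [← nsmul_eq_mul, ← Finset.sum_const]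
    apply Finset.sum_le_sum
    intro R' hR'
    rw [hBd, Finset.mem_filter] at hR'
    have h1 : k < (R' ∩ Z).card := not_le.1 hR'.2
    exact (Nat.lt_of_floor_lt h1).le
  have hBdle : ∑ R' ∈ Bd, ((R' ∩ Z).card : ℝ) ≤ ∑ R' ∈ FF', ((R' ∩ Z).card : ℝ) :=
    Finset.sum_le_sum_of_subset_of_nonneg (Finset.filter_subset _ _)
      (fun _ _ _ => Nat.cast_nonneg _)
  have hhalf : FF'.card ≤ 2 * G.card := by
    rcases hm.lt_or_eq with hpos | h0
    · have h1 : (Bd.card : ℝ) * (4 * m) ≤ FF'.card * (2 * m) := hBdsum.trans (hBdle.trans hav)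
      have h2 : 2 * (Bd.card : ℝ) ≤ FF'.card := by
        have h3 : (2 * (Bd.card : ℝ)) * (2 * m) ≤ FF'.card * (2 * m) := by linarith
        exact le_of_mul_le_mul_right h3 (by linarith)
      have h4 : 2 * Bd.card ≤ FF'.card := by exact_mod_cast h2
      omega
    · have h1 : Bd = ∅ := by
        by_contra hne
        obtain ⟨R', hR'⟩ := Finset.nonempty_iff_ne_empty.2 hne
        have h2 : (1 : ℝ) ≤ ((R' ∩ Z).card : ℝ) := by
          rw [hBd, Finset.mem_filter] at hR'
          have h1 : k < (R' ∩ Z).card := not_le.1 hR'.2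
          exact_mod_cast (by omega : 1 ≤ (R' ∩ Z).card)
        have h3 : ((R' ∩ Z).card : ℝ) ≤ ∑ R' ∈ Bd, ((R' ∩ Z).card : ℝ) :=
          Finset.single_le_sum (f := fun R' => ((R' ∩ Z).card : ℝ))
            (fun _ _ => Nat.cast_nonneg _) hR'
        have h4 := hBdle.trans hav
        rw [← h0] at h4
        linarith
      rw [h1, Finset.card_empty] at hsplit
      omega
  -- the number of good supports
  have hGcard : G.card ≤ (Fintype.card J + 1) ^ k * (Fintype.card J + 1) ^ k := by
    have h1 := Finset.card_le_mul_card_image_of_maps_to (f := fun R' => R' ∩ Z) (s := G)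
      (t := univ.filter (fun B : Finset J => B.card ≤ k)) ?_ ((Fintype.card J + 1) ^ k) ?_
    · exact h1.trans (Nat.mul_le_mul_left _ (card_small_mat J k))
    · intro R' hR'
      rw [hG, Finset.mem_filter] at hR'
      rw [Finset.mem_filter]
      exact ⟨Finset.mem_univ _, hR'.2⟩
    · intro Z₀ hZ₀
      have hZ₀k : Z₀.card ≤ k := (Finset.mem_filter.1 hZ₀).2
      set E : Submodule K (J → K) := Λ' ⊓ SQ K (Z \ Z₀)ᶜ with hE
      have hEv : ∀ v, v ∈ E ↔ v ∈ Λ' ∧ ∀ p ∈ Z, p ∉ Z₀ → v p = 0 := by
        intro v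
        constructor
        · rintro ⟨h1, h2⟩
          refine ⟨h1, fun p hp hp' => h2 p ?_⟩
          rw [Finset.mem_compl, not_not, Finset.mem_sdiff]
          exact ⟨hp, hp'⟩
        · rintro ⟨h1, h2⟩
          refine ⟨h1, fun p hp => ?_⟩
          rw [Finset.mem_compl, not_not, Finset.mem_sdiff] at hp
          exact h2 p hp.1 hp.2
      have hfin : Module.finrank K E ≤ k := by
        refine le_trans ?_ hZ₀k
        set f : E →ₗ[K] (Z₀ → K) :=
          { toFun := fun v p => v.1 p.1
            map_add' := fun _ _ => rfl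
            map_smul' := fun _ _ => rfl } with hf
        have hinj : Function.Injective f := by
          rw [injective_iff_map_eq_zero]
          intro v hv
          have hv2 := (hEv v.1).1 v.2
          apply Subtype.ext
          apply hZdet v.1 hv2.1
          intro p hp
          by_cases hpZ : p ∈ Z₀
          · exact congrFun hv ⟨p, hpZ⟩
          · exact hv2.2 p hp hpZ
        have h2 := LinearMap.finrank_le_finrank_of_injective hinj
        rw [Module.finrank_pi, Fintype.card_coe] at h2
        exact h2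
      apply supp_count_mat E k hfin
      intro R' hR'
      rw [Finset.mem_filter, hG, Finset.mem_filter] at hR'
      obtain ⟨⟨hR1, hR2⟩, hR3⟩ := hR'
      obtain ⟨⟨v, hv, hsup⟩, _⟩ := hsup' R' hR1
      refine ⟨v, (hEv v).2 ⟨hv, ?_⟩, hsup⟩
      intro p hp hpZ
      by_contra hcon
      apply hpZ
      rw [← hR3, Finset.mem_inter]
      exact ⟨(hsup p).1 hcon, hp⟩
  calc FF'.card ≤ 2 * G.card := hhalf
    _ ≤ 2 * ((Fintype.card J + 1) ^ k * (Fintype.card J + 1) ^ k) := Nat.mul_le_mul_left _ hGcard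
    _ = 2 * (Fintype.card J + 1) ^ (2 * k) := by ring

end Pool.Agent.H99.AG
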