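import Pool.Agent.H38.AG.Targets
import Pool.Agent.H99.AG.MATcore

set_option autoImplicit false

open Pool.Agent.H38.RB Pool.Agent.H38.PS Pool.Agent.H82.RD Pool.Agent.H38.AB Pool.Agent.H38.AG

namespace Pool.Agent.H99.AG

theorem sp0_eq_mat {ι : Type} (Q : Finset ι) : sp0 Q = SQ ℚ Q := rfl

theorem pf_MGZ : T_MGZ := by
  intro ι _ _ Λ ν c h
  exact basis_mat Λ c ν h

theorem pf_MCN : T_MCN := by
  intro ι _ _ Λ μ b hμ hb hD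
  classical
  obtain ⟨Q₀, _, hmax⟩ := Finset.exists_max_image (Finset.univ : Finset (Finset ι))
    (fun Q => (DD Λ Q : ℝ) - 2 * ∑ p ∈ Q, μ p) ⟨∅, Finset.mem_univ _⟩
  have hQ0 : 2 * (∑ p ∈ Q₀, μ p) ≤ (DD Λ Q₀ : ℝ) := by
    have h1 := hmax ∅ (Finset.mem_univ _)
    simp only [Finset.sum_empty, mul_zero, sub_zero] at h1
    have h2 : (0 : ℝ) ≤ (DD Λ (∅ : Finset ι) : ℝ) := Nat.cast_nonneg _
    linarith
  refine ⟨Q₀, Λ.map (prQ ℚ Q₀), by linarith [hD Q₀], ?_, ?_⟩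
  · intro v hv
    exact ⟨v, hv, rfl⟩
  · intro Q
    have h1 := proj_mat Λ Q Q₀
    have h2 := hmax (Q ∪ Q₀) (Finset.mem_univ _)
    have h3 : (∑ p ∈ Q ∪ Q₀, μ p) ≤ (∑ p ∈ Q, μ p) + ∑ p ∈ Q₀, μ p := by
      have := Finset.sum_union_inter (s₁ := Q) (s₂ := Q₀) (f := μ)
      have h4 : 0 ≤ ∑ p ∈ Q ∩ Q₀, μ p := Finset.sum_nonneg (fun p _ => hμ p)
      linarith
    have h5 : (DD (Λ.map (prQ ℚ Q₀)) Q : ℝ) + (DD Λ Q₀ : ℝ) ≤ (DD Λ (Q ∪ Q₀) : ℝ) := by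
      exact_mod_cast h1
    linarith

theorem pf_MAT : T_MAT := by
  intro ι _ _ Λ F μ b m₀ hμ _ hm hD hF
  obtain ⟨Q₀, h1, h2⟩ := mat Λ μ hμ b m₀ hm hD F hF
  refine ⟨Q₀, h1, ?_⟩
  have h3 : ((F.image fun R => R \ Q₀).card : ℝ) ≤
      2 * ((Fintype.card ι : ℝ) + 1) ^ (2 * ⌊4 * m₀⌋₊) := by exact_mod_cast h2
  refine h3.trans ?_
  apply mul_le_mul_of_nonneg_left _ (by norm_num)
  rw [← Real.rpow_natCast]
  apply Real.rpow_le_rpow_of_exponent_le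
  · have : (0 : ℝ) ≤ (Fintype.card ι : ℝ) := Nat.cast_nonneg _
    linarith
  · push_cast
    have := Nat.floor_le (by linarith : (0 : ℝ) ≤ 4 * m₀)
    linarith

end Pool.Agent.H99.AG
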