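import Pool.Agent.H38.AG.Targets

set_option autoImplicit false

open Pool.Agent.H38.RB Pool.Agent.H38.PS Pool.Agent.H82.RD Pool.Agent.H38.AB Pool.Agent.H38.AG

namespace Pool.Agent.H99.AG

theorem pd_pos_rc {S : Finset ℕ} (hS : ∀ p ∈ S, p.Prime) : 0 < pd S :=
  Finset.prod_pos fun p hp => (hS p hp).pos

theorem pd_mono_rc {S T : Finset ℕ} (hT : ∀ p ∈ T, p.Prime) (h : S ⊆ T) : pd S ≤ pd T :=
  Nat.le_of_dvd (pd_pos_rc hT) (Finset.prod_dvd_prod_of_subset _ _ _ h)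

theorem pd_inj_rc {S T : Finset ℕ} (hS : ∀ p ∈ S, p.Prime) (hT : ∀ p ∈ T, p.Prime)
    (h : pd S = pd T) : S = T := by
  have h1 := Nat.primeFactors_prod hS
  have h2 := Nat.primeFactors_prod hT
  unfold pd at h
  rw [← h1, ← h2, h]

theorem pd_split_rc (S : Finset ℕ) (P : ℕ → Prop) [DecidablePred P] :
    pd (S.filter P) * pd (S.filter fun p => ¬ P p) = pd S :=
  Finset.prod_filter_mul_prod_filter_not S P _

theorem sum_inv_pd_rc {X : ℝ} (hX : 1 ≤ X) (𝒮 : Finset (Finset ℕ))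
    (h : ∀ S ∈ 𝒮, (∀ p ∈ S, p.Prime) ∧ (pd S : ℝ) ≤ X) :
    ∑ S ∈ 𝒮, ((pd S : ℝ))⁻¹ ≤ 1 + Real.log X := by
  classical
  have h1 : ∑ S ∈ 𝒮, ((pd S : ℝ))⁻¹ = ∑ n ∈ 𝒮.image pd, ((n : ℝ))⁻¹ := by
    rw [Finset.sum_image]
    intro S hS T hT hST
    exact pd_inj_rc (h S hS).1 (h T hT).1 hST
  rw [h1]
  have h2 : 𝒮.image pd ⊆ Finset.Icc 1 ⌊X⌋₊ := by
    intro n hn
    obtain ⟨S, hS, rfl⟩ := Finset.mem_image.1 hn
    rw [Finset.mem_Icc]
    exact ⟨pd_pos_rc (h S hS).1, Nat.le_floor (h S hS).2⟩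
  have h3 := harmonic_floor_le_one_add_log X hX
  rw [harmonic_eq_sum_Icc] at h3
  push_cast at h3
  exact (Finset.sum_le_sum_of_subset_of_nonneg h2 (fun _ _ _ => by positivity)).trans h3

theorem part_rc {α : Type} [DecidableEq α] {X M : ℝ} (hX : 1 ≤ X) (hM : 0 ≤ M) (I : ℕ)
    (F : Finset α) (kS : α → Finset ℕ) (ki kj : α → ℕ)
    (h1 : ∀ f ∈ F, (∀ p ∈ kS f, p.Prime) ∧ (pd (kS f) : ℝ) ≤ X ∧ ki f < I ∧ kj f < I)
    (h2 : ∀ S i j, ((F.filter (fun f => kS f = S ∧ ki f = i ∧ kj f = j)).card : ℝ) ≤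
      M * (pd S : ℝ)⁻¹) :
    (F.card : ℝ) ≤ I * I * (M * (1 + Real.log X)) := by
  classical
  have e1 := Finset.card_eq_sum_card_fiberwise (f := fun f => (kS f, ki f, kj f)) (s := F)
    (t := F.image kS ×ˢ (Finset.range I ×ˢ Finset.range I)) (by
      intro f hf
      have hf' := h1 f hf
      simp only [Finset.coe_product, Set.mem_prod, Finset.mem_coe, Finset.mem_range]
      exact ⟨Finset.mem_image_of_mem kS hf, hf'.2.2.1, hf'.2.2.2⟩)
  have e2 : (F.card : ℝ) ≤ ∑ t ∈ F.image kS ×ˢ (Finset.range I ×ˢ Finset.range I),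
      M * (pd t.1 : ℝ)⁻¹ := by
    rw [e1]
    push_cast
    apply Finset.sum_le_sum
    rintro ⟨S, i, j⟩ _
    refine le_trans (le_of_eq ?_) (h2 S i j)
    congr 2
    apply Finset.filter_congr
    intro f _
    simp only [Prod.mk.injEq]
  refine e2.trans ?_
  rw [Finset.sum_product]
  simp only [Finset.sum_const, Finset.card_product, Finset.card_range, nsmul_eq_mul]
  rw [← Finset.mul_sum, ← Finset.mul_sum]
  push_cast
  apply mul_le_mul_of_nonneg_left _ (by positivity)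
  apply mul_le_mul_of_nonneg_left _ hM
  apply sum_inv_pd_rc hX
  intro S hS
  obtain ⟨f, hf, rfl⟩ := Finset.mem_image.1 hS
  exact ⟨(h1 f hf).1, (h1 f hf).2.1⟩

theorem dpt_rc {q e Bd : ℕ} {B C S R : Finset ℕ} (hd : Disjoint B C) (hu : S ∪ R = B ∪ C)
    (h : RP q e Bd B C) : Dpt q e Bd S R := by
  obtain ⟨β, hβ, hc⟩ := h
  refine ⟨fun p => if p ∈ C then β p else 0, fun p => if p ∈ B then β p else 0, ?_, ?_, ?_⟩
  · intro p hp
    rw [hu] at hp
    have := (hβ p hp).2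
    constructor
    · show (if p ∈ C then β p else 0) ≤ Bd
      split_ifs <;> omega
    · show (if p ∈ B then β p else 0) ≤ Bd
      split_ifs <;> omega
  · intro p hp
    have hp' : p ∈ B ∪ C := by rw [← hu]; exact Finset.mem_union_right _ hp
    have h1 := (hβ p hp').1
    show (if p ∈ C then β p else 0) ≠ (if p ∈ B then β p else 0)
    rcases Finset.mem_union.1 hp' with hB | hC
    · have hC : p ∉ C := Finset.disjoint_left.1 hd hB
      rw [if_neg hC, if_pos hB]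
      omega
    · have hB : p ∉ B := fun hB => Finset.disjoint_left.1 hd hB hC
      rw [if_pos hC, if_neg hB]
      omega
  · rw [hu]
    have e1 : (∏ p ∈ B ∪ C, p ^ (if p ∈ B then β p else 0)) = ∏ p ∈ B, p ^ β p := by
      rw [Finset.prod_union hd]
      have a1 : (∏ p ∈ B, p ^ (if p ∈ B then β p else 0)) = ∏ p ∈ B, p ^ β p :=
        Finset.prod_congr rfl (fun p hp => by rw [if_pos hp])
      have a2 : (∏ p ∈ C, p ^ (if p ∈ B then β p else 0)) = 1 :=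
        Finset.prod_eq_one (fun p hp => by
          rw [if_neg (fun hB => Finset.disjoint_left.1 hd hB hp), pow_zero])
      rw [a1, a2, mul_one]
    have e2 : (∏ p ∈ B ∪ C, p ^ (if p ∈ C then β p else 0)) = ∏ p ∈ C, p ^ β p := by
      rw [Finset.prod_union hd]
      have a1 : (∏ p ∈ C, p ^ (if p ∈ C then β p else 0)) = ∏ p ∈ C, p ^ β p :=
        Finset.prod_congr rfl (fun p hp => by rw [if_pos hp])
      have a2 : (∏ p ∈ B, p ^ (if p ∈ C then β p else 0)) = 1 :=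
        Finset.prod_eq_one (fun p hp => by
          rw [if_neg (fun hC => Finset.disjoint_left.1 hd hp hC), pow_zero])
      rw [a1, a2, one_mul]
    rw [e1, e2]
    exact hc

theorem rel_rc {q e Bd : ℕ} {B C : Finset ℕ} (P : ℕ → Prop) [DecidablePred P]
    (hd : Disjoint B C) (h : RP q e Bd B C) :
    ∃ α γ β : ℕ → ℕ, (∀ p, α p ≤ Bd ∧ γ p ≤ Bd) ∧
      (∀ p ∈ B.filter (fun p => ¬ P p) ∪ C.filter (fun p => ¬ P p), 1 ≤ β p ∧ β p ≤ Bd) ∧
      ((∏ p ∈ (B ∪ C).filter P, p ^ α p) * ∏ p ∈ B.filter (fun p => ¬ P p), p ^ β p) ^ 2 ≡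
        ((∏ p ∈ (B ∪ C).filter P, p ^ γ p) * ∏ p ∈ C.filter (fun p => ¬ P p), p ^ β p) ^ 2
          [MOD q ^ e] := by
  obtain ⟨β, hβ, hc⟩ := h
  have hdf : Disjoint (B.filter P) (C.filter P) :=
    Finset.disjoint_filter_filter hd
  refine ⟨fun p => if p ∈ B then β p else 0, fun p => if p ∈ C then β p else 0, β, ?_, ?_, ?_⟩
  · intro p
    constructor
    · show (if p ∈ B then β p else 0) ≤ Bd
      split_ifs with hp
      · exact (hβ p (Finset.mem_union_left _ hp)).2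
      · exact Nat.zero_le _
    · show (if p ∈ C then β p else 0) ≤ Bd
      split_ifs with hp
      · exact (hβ p (Finset.mem_union_right _ hp)).2
      · exact Nat.zero_le _
  · intro p hp
    apply hβ
    rcases Finset.mem_union.1 hp with h | h
    · exact Finset.mem_union_left _ (Finset.mem_filter.1 h).1
    · exact Finset.mem_union_right _ (Finset.mem_filter.1 h).1
  · rw [Finset.filter_union]
    have e1 : (∏ p ∈ B.filter P ∪ C.filter P, p ^ (if p ∈ B then β p else 0))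
        = ∏ p ∈ B.filter P, p ^ β p := by
      rw [Finset.prod_union hdf]
      have a1 : (∏ p ∈ B.filter P, p ^ (if p ∈ B then β p else 0)) = ∏ p ∈ B.filter P, p ^ β p :=
        Finset.prod_congr rfl (fun p hp => by rw [if_pos (Finset.mem_filter.1 hp).1])
      have a2 : (∏ p ∈ C.filter P, p ^ (if p ∈ B then β p else 0)) = 1 :=
        Finset.prod_eq_one (fun p hp => by
          rw [if_neg (fun hB => Finset.disjoint_left.1 hd hB (Finset.mem_filter.1 hp).1),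
            pow_zero])
      rw [a1, a2, mul_one]
    have e2 : (∏ p ∈ B.filter P ∪ C.filter P, p ^ (if p ∈ C then β p else 0))
        = ∏ p ∈ C.filter P, p ^ β p := by
      rw [Finset.prod_union hdf]
      have a1 : (∏ p ∈ C.filter P, p ^ (if p ∈ C then β p else 0)) = ∏ p ∈ C.filter P, p ^ β p :=
        Finset.prod_congr rfl (fun p hp => by rw [if_pos (Finset.mem_filter.1 hp).1])
      have a2 : (∏ p ∈ B.filter P, p ^ (if p ∈ C then β p else 0)) = 1 :=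
        Finset.prod_eq_one (fun p hp => by
          rw [if_neg (fun hC => Finset.disjoint_left.1 hd (Finset.mem_filter.1 hp).1 hC),
            pow_zero])
      rw [a1, a2, one_mul]
    rw [e1, e2, Finset.prod_filter_mul_prod_filter_not, Finset.prod_filter_mul_prod_filter_not]
    exact hc

theorem clog_rc {n : ℕ} (hn : 1 ≤ n) : n ≤ 2 ^ Nat.clog 2 n ∧ 2 ^ Nat.clog 2 n ≤ 2 * n := by
  refine ⟨Nat.le_pow_clog (by norm_num) n, ?_⟩
  rcases Nat.lt_or_ge 1 n with h | h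
  · have h1 := Nat.pow_pred_clog_lt_self (b := 2) (by norm_num) h
    have h2 : 0 < Nat.clog 2 n := Nat.clog_pos (by norm_num) h
    obtain ⟨k, hk⟩ : ∃ k, Nat.clog 2 n = k + 1 := ⟨Nat.clog 2 n - 1, by omega⟩
    rw [hk] at h1 ⊢
    simp only [Nat.pred_eq_sub_one, Nat.add_sub_cancel] at h1
    rw [pow_succ]
    omega
  · have : n = 1 := by omega
    subst this
    simp

theorem clog_lt_rc {X : ℝ} (hX : 1 ≤ X) {n : ℕ} (hn : 1 ≤ n) (h : (n : ℝ) ≤ X) :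
    Nat.clog 2 n < ⌊2 * Real.log X⌋₊ + 2 := by
  have h1 := (clog_rc hn).2
  have h2 : ((2 : ℝ)) ^ Nat.clog 2 n ≤ 2 * n := by exact_mod_cast h1
  have h3 : (Nat.clog 2 n : ℝ) * Real.log 2 ≤ Real.log 2 + Real.log X := by
    have h4 := Real.log_le_log (by positivity) (h2.trans (by linarith : (2 : ℝ) * n ≤ 2 * X))
    rw [Real.log_pow, Real.log_mul (by norm_num) (by linarith)] at h4
    exact h4
  have hl2 := Real.log_two_gt_d9
  have hlX : 0 ≤ Real.log X := Real.log_nonneg hX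
  have h5 : (Nat.clog 2 n : ℝ) ≤ 2 * Real.log X + 1 := by
    by_contra hcon
    have h6 : 2 * Real.log X + 1 < (Nat.clog 2 n : ℝ) := not_le.1 hcon
    nlinarith
  have h7 : (Nat.clog 2 n : ℝ) < (⌊2 * Real.log X⌋₊ + 2 : ℕ) := by
    push_cast
    have := Nat.lt_floor_add_one (2 * Real.log X)
    linarith
  exact_mod_cast h7

theorem two_pow_rc {X ρ : ℝ} (hX : 1 ≤ Real.log (Real.log X)) (hX0 : 0 < X) {R : Finset ℕ}
    (h : (R.card : ℝ) * Real.log (Real.log X) ≤ ρ * Real.log X) : (2 : ℝ) ^ R.card ≤ X ^ ρ := by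
  have h1 : (R.card : ℝ) ≤ ρ * Real.log X := by
    have h0 : (0 : ℝ) ≤ (R.card : ℝ) := Nat.cast_nonneg _
    nlinarith
  have h2 : (2 : ℝ) ^ R.card ≤ Real.exp 1 ^ R.card :=
    pow_le_pow_left₀ (by norm_num) (by linarith [Real.exp_one_gt_d9]) _
  refine h2.trans ?_
  rw [← Real.exp_nat_mul, mul_one, Real.rpow_def_of_pos hX0]
  apply Real.exp_le_exp.2
  linarith

theorem opt1_rc {η K₁ ρ₁ X₁ : ℝ}
    (hRO : ∀ (X ℓ Zt Zm : ℝ) (q e Bd : ℕ) (S : Finset ℕ) (F : Finset (Finset ℕ)), X₁ ≤ X →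
      K₁ * Real.log (Real.log X) ≤ ℓ → ℓ ≤ 30 * Real.log X → q.Prime → (q : ℝ) ≤ X →
      (Bd : ℝ) ≤ X ^ 62 → 1 ≤ Bd → Real.exp (ℓ / 2) ≤ (e : ℝ) →
      (∀ p ∈ S, p.Prime ∧ p ≠ q ∧ (p : ℝ) ≤ X) → (S.card : ℝ) ≤ Real.log X →
      1 ≤ Zt → 1 ≤ Zm → Zt ≤ X → Zm ≤ X →
      (∀ R ∈ F, Disjoint S R ∧ (∀ p ∈ R, p.Prime ∧ p ≠ q ∧ (p : ℝ) ≤ X ∧
          Real.log X ^ 30 < (p : ℝ) ∧ (p : ℝ) ≤ Real.exp (100 * ℓ)) ∧
        (R.card : ℝ) * Real.log (Real.log X) ≤ ρ₁ * Real.log X ∧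
        (pd (R.filter fun p => (p : ℝ) ≤ Real.exp (ℓ / 10000)) : ℝ) ≤ Zt ∧
        (pd (R.filter fun p => ¬ (p : ℝ) ≤ Real.exp (ℓ / 10000)) : ℝ) ≤ Zm ∧
        Zm ≤ 2 * (pd (R.filter fun p => ¬ (p : ℝ) ≤ Real.exp (ℓ / 10000)) : ℝ) ∧
        Dpt q e Bd S R) →
      (F.card : ℝ) ≤ X ^ η * Zt ^ (1 / 4 : ℝ) * Zm ^ (1 - 1 / 10000000 : ℝ))
    {X ℓ Y ρ : ℝ} {q e Bd : ℕ} (hX₁ : X₁ ≤ X) (hX1 : 1 ≤ X) (hll : 1 ≤ Real.log (Real.log X))
    (hK : K₁ * Real.log (Real.log X) ≤ ℓ) (hℓ : ℓ ≤ 30 * Real.log X) (hq : q.Prime)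
    (hqX : (q : ℝ) ≤ X) (hBd1 : 1 ≤ Bd) (hBd : (Bd : ℝ) ≤ X ^ 62)
    (he : Real.exp (ℓ / 2) ≤ (e : ℝ)) (hρ : ρ ≤ ρ₁) (hρ1 : ρ ≤ 1) (hY0 : 0 ≤ Y) (hY : 2 * Y ≤ X)
    (F : Finset (Finset ℕ × Finset ℕ))
    (hF : ∀ f ∈ F, Disjoint f.1 f.2 ∧ (∀ p ∈ f.1 ∪ f.2, p.Prime ∧ p ≠ q ∧ (p : ℝ) ≤ X) ∧
      (pd (f.1 ∪ f.2) : ℝ) ≤ Y ∧
      X ^ (1 / 4 : ℝ) ≤ (pd ((f.1 ∪ f.2).filter fun p =>
        ¬ ((p : ℝ) ≤ Real.log X ^ 30 ∨ Real.exp (100 * ℓ) < (p : ℝ))) : ℝ) ∧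
      ((f.1 ∪ f.2).card : ℝ) * Real.log (Real.log X) ≤ ρ * Real.log X ∧ RP q e Bd f.1 f.2) :
    (F.card : ℝ) ≤ ((⌊2 * Real.log X⌋₊ + 2 : ℕ) : ℝ) * ((⌊2 * Real.log X⌋₊ + 2 : ℕ) : ℝ) *
      (X ^ ρ * X ^ η * (4 * Y * X ^ (-(1 / 4 * (1 / 10000000)) : ℝ)) * (1 + Real.log X)) := by
  classical
  have hX0 : 0 < X := by linarith
  set Pr : ℕ → Prop := fun p => (p : ℝ) ≤ Real.log X ^ 30 ∨ Real.exp (100 * ℓ) < (p : ℝ) with hPr
  set Pt : ℕ → Prop := fun p => (p : ℝ) ≤ Real.exp (ℓ / 10000) with hPt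
  have hprime : ∀ f ∈ F, ∀ p ∈ f.1 ∪ f.2, p.Prime := fun f hf p hp => ((hF f hf).2.1 p hp).1
  have hpdle : ∀ f ∈ F, ∀ T : Finset ℕ, T ⊆ f.1 ∪ f.2 → (pd T : ℝ) ≤ Y := by
    intro f hf T hT
    have h1 := pd_mono_rc (hprime f hf) hT
    have h2 : (pd T : ℝ) ≤ (pd (f.1 ∪ f.2) : ℝ) := by exact_mod_cast h1
    exact h2.trans (hF f hf).2.2.1
  have hpdpos : ∀ f ∈ F, ∀ T : Finset ℕ, T ⊆ f.1 ∪ f.2 → 1 ≤ pd T := by
    intro f hf T hT
    exact pd_pos_rc (fun p hp => hprime f hf p (hT hp))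
  have hsub1 : ∀ f : Finset ℕ × Finset ℕ, (f.1 ∪ f.2).filter Pr ⊆ f.1 ∪ f.2 :=
    fun f => Finset.filter_subset _ _
  have hsub2 : ∀ f : Finset ℕ × Finset ℕ, ((f.1 ∪ f.2).filter fun p => ¬ Pr p) ⊆ f.1 ∪ f.2 :=
    fun f => Finset.filter_subset _ _
  have hsub3 : ∀ f : Finset ℕ × Finset ℕ,
      (((f.1 ∪ f.2).filter fun p => ¬ Pr p).filter Pt) ⊆ f.1 ∪ f.2 :=
    fun f => (Finset.filter_subset _ _).trans (hsub2 f)
  have hsub4 : ∀ f : Finset ℕ × Finset ℕ,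
      (((f.1 ∪ f.2).filter fun p => ¬ Pr p).filter fun p => ¬ Pt p) ⊆ f.1 ∪ f.2 :=
    fun f => (Finset.filter_subset _ _).trans (hsub2 f)
  have hYX : Y ≤ X := by linarith
  apply part_rc hX1 (by positivity) (⌊2 * Real.log X⌋₊ + 2) F
    (fun f => (f.1 ∪ f.2).filter Pr)
    (fun f => Nat.clog 2 (pd (((f.1 ∪ f.2).filter fun p => ¬ Pr p).filter Pt)))
    (fun f => Nat.clog 2 (pd (((f.1 ∪ f.2).filter fun p => ¬ Pr p).filter fun p => ¬ Pt p)))
  · intro f hf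
    refine ⟨fun p hp => hprime f hf p (hsub1 f hp), (hpdle f hf _ (hsub1 f)).trans hYX, ?_, ?_⟩
    · exact clog_lt_rc hX1 (hpdpos f hf _ (hsub3 f)) ((hpdle f hf _ (hsub3 f)).trans hYX)
    · exact clog_lt_rc hX1 (hpdpos f hf _ (hsub4 f)) ((hpdle f hf _ (hsub4 f)).trans hYX)
  · intro S i j
    set Φ := F.filter (fun f => (f.1 ∪ f.2).filter Pr = S ∧
      Nat.clog 2 (pd (((f.1 ∪ f.2).filter fun p => ¬ Pr p).filter Pt)) = i ∧
      Nat.clog 2 (pd (((f.1 ∪ f.2).filter fun p => ¬ Pr p).filter fun p => ¬ Pt p)) = j) with hΦ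
    rcases Φ.eq_empty_or_nonempty with hemp | hne
    · rw [hemp, Finset.card_empty]
      have : (0 : ℝ) ≤ X ^ ρ * X ^ η * (4 * Y * X ^ (-(1 / 4 * (1 / 10000000)) : ℝ)) *
          (pd S : ℝ)⁻¹ := by positivity
      simpa using this
    obtain ⟨f₀, hf₀⟩ := hne
    have hm : ∀ f ∈ Φ, f ∈ F ∧ (f.1 ∪ f.2).filter Pr = S ∧
        Nat.clog 2 (pd (((f.1 ∪ f.2).filter fun p => ¬ Pr p).filter Pt)) = i ∧
        Nat.clog 2 (pd (((f.1 ∪ f.2).filter fun p => ¬ Pr p).filter fun p => ¬ Pt p)) = j :=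
      fun f hf => Finset.mem_filter.1 hf
    obtain ⟨h0F, h0S, h0i, h0j⟩ := hm f₀ hf₀
    set 𝓡 := Φ.image (fun f => (f.1 ∪ f.2).filter fun p => ¬ Pr p) with h𝓡
    -- (a)
    have ha : (Φ.card : ℝ) ≤ X ^ ρ * (𝓡.card : ℝ) := by
      have h1 := Finset.card_le_mul_card_image (f := fun f : Finset ℕ × Finset ℕ =>
        (f.1 ∪ f.2).filter fun p => ¬ Pr p) Φ ⌊X ^ ρ⌋₊ (by
        intro R hR
        obtain ⟨f₁, hf₁, hf₁R⟩ := Finset.mem_image.1 hR
        obtain ⟨h1F, h1S, _, _⟩ := hm f₁ hf₁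
        have hSR : S ∪ R = f₁.1 ∪ f₁.2 := by
          rw [← h1S, ← hf₁R]
          exact Finset.filter_union_filter_not_eq _ _
        have h2 : (Φ.filter fun f => ((f.1 ∪ f.2).filter fun p => ¬ Pr p) = R).card ≤
            (S ∪ R).powerset.card := by
          apply Finset.card_le_card_of_injOn (fun f => f.1)
          · intro f hf
            rw [Finset.mem_coe, Finset.mem_filter] at hf
            obtain ⟨hfΦ, hfR⟩ := hf
            obtain ⟨_, hfS, _, _⟩ := hm f hfΦ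
            rw [Finset.mem_coe, Finset.mem_powerset, ← hfS, ← hfR,
              Finset.filter_union_filter_not_eq]
            exact Finset.subset_union_left
          · intro f hf g hg hfg
            rw [Finset.mem_coe, Finset.mem_filter] at hf hg
            obtain ⟨hfΦ, hfR⟩ := hf
            obtain ⟨hfF, hfS, _, _⟩ := hm f hfΦ
            obtain ⟨hgΦ, hgR⟩ := hg
            obtain ⟨hgF, hgS, _, _⟩ := hm g hgΦ
            have e1 : f.1 ∪ f.2 = S ∪ R := by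
              rw [← hfS, ← hfR, Finset.filter_union_filter_not_eq]
            have e2 : g.1 ∪ g.2 = S ∪ R := by
              rw [← hgS, ← hgR, Finset.filter_union_filter_not_eq]
            have d1 := (hF f hfF).1
            have d2 := (hF g hgF).1
            have hfg' : f.1 = g.1 := hfg
            apply Prod.ext hfg'
            have e3 : f.2 = (f.1 ∪ f.2) \ f.1 := by
              rw [Finset.union_sdiff_cancel_left d1]
            have e4 : g.2 = (g.1 ∪ g.2) \ g.1 := by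
              rw [Finset.union_sdiff_cancel_left d2]
            rw [e3, e4, e1, e2, hfg']
        rw [Finset.card_powerset, hSR] at h2
        refine h2.trans (Nat.le_floor ?_)
        push_cast
        exact two_pow_rc hll hX0 (hF f₁ h1F).2.2.2.2.1)
      have h2 : (Φ.card : ℝ) ≤ (⌊X ^ ρ⌋₊ : ℝ) * (𝓡.card : ℝ) := by exact_mod_cast h1
      refine h2.trans ?_
      apply mul_le_mul_of_nonneg_right _ (Nat.cast_nonneg _)
      exact Nat.floor_le (by positivity)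
    -- (b)
    have hSsub : S ⊆ f₀.1 ∪ f₀.2 := by rw [← h0S]; exact hsub1 f₀
    have hlogX : 0 ≤ Real.log X := Real.log_nonneg hX1
    have hcardle : ∀ f ∈ F, ∀ T : Finset ℕ, T ⊆ f.1 ∪ f.2 →
        (T.card : ℝ) * Real.log (Real.log X) ≤ ρ * Real.log X := by
      intro f hf T hT
      have h1 : (T.card : ℝ) ≤ ((f.1 ∪ f.2).card : ℝ) := by
        exact_mod_cast Finset.card_le_card hT
      exact (mul_le_mul_of_nonneg_right h1 (by linarith)).trans (hF f hf).2.2.2.2.1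
    set at' := pd (((f₀.1 ∪ f₀.2).filter fun p => ¬ Pr p).filter Pt) with hat
    set am' := pd (((f₀.1 ∪ f₀.2).filter fun p => ¬ Pr p).filter fun p => ¬ Pt p) with ham
    have hat1 : 1 ≤ at' := hpdpos f₀ h0F _ (hsub3 f₀)
    have ham1 : 1 ≤ am' := hpdpos f₀ h0F _ (hsub4 f₀)
    have hatX := hpdle f₀ h0F _ (hsub3 f₀)
    have hamX := hpdle f₀ h0F _ (hsub4 f₀)
    have hZt2 : ((2 : ℝ)) ^ i ≤ 2 * at' := by
      rw [← h0i]
      exact_mod_cast (clog_rc hat1).2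
    have hZm2 : ((2 : ℝ)) ^ j ≤ 2 * am' := by
      rw [← h0j]
      exact_mod_cast (clog_rc ham1).2
    have hb : (𝓡.card : ℝ) ≤ X ^ η * ((2 : ℝ) ^ i) ^ (1 / 4 : ℝ) *
        ((2 : ℝ) ^ j) ^ (1 - 1 / 10000000 : ℝ) := by
      apply hRO X ℓ ((2 : ℝ) ^ i) ((2 : ℝ) ^ j) q e Bd S 𝓡 hX₁ hK hℓ hq hqX hBd hBd1 he
      · intro p hp
        exact (hF f₀ h0F).2.1 p (hSsub hp)
      · have h1 := hcardle f₀ h0F S hSsub
        have h0 : (0 : ℝ) ≤ (S.card : ℝ) := Nat.cast_nonneg _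
        nlinarith
      · exact one_le_pow₀ (by norm_num)
      · exact one_le_pow₀ (by norm_num)
      · linarith
      · linarith
      · intro R hR
        obtain ⟨f, hf, rfl⟩ := Finset.mem_image.1 hR
        obtain ⟨hfF, hfS, hfi, hfj⟩ := hm f hf
        refine ⟨?_, ?_, ?_, ?_, ?_, ?_, ?_⟩
        · rw [← hfS]
          exact Finset.disjoint_filter_filter_not _ _ _
        · intro p hp
          rw [Finset.mem_filter] at hp
          obtain ⟨a1, a2, a3⟩ := (hF f hfF).2.1 p hp.1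
          have hp2 := hp.2
          simp only [hPr, not_or, not_le, not_lt] at hp2
          exact ⟨a1, a2, a3, hp2.1, hp2.2⟩
        · have h1 := hcardle f hfF _ (hsub2 f)
          have h2 : ρ * Real.log X ≤ ρ₁ * Real.log X := mul_le_mul_of_nonneg_right hρ hlogX
          exact h1.trans h2
        · have h1 := (clog_rc (hpdpos f hfF _ (hsub3 f))).1
          rw [hfi] at h1
          exact_mod_cast h1
        · have h1 := (clog_rc (hpdpos f hfF _ (hsub4 f))).1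
          rw [hfj] at h1
          exact_mod_cast h1
        · have h1 := (clog_rc (hpdpos f hfF _ (hsub4 f))).2
          rw [hfj] at h1
          exact_mod_cast h1
        · apply dpt_rc (hF f hfF).1 _ (hF f hfF).2.2.2.2.2
          rw [← hfS]
          exact Finset.filter_union_filter_not_eq _ _
    -- (c)
    have hc : ((2 : ℝ) ^ i) ^ (1 / 4 : ℝ) * ((2 : ℝ) ^ j) ^ (1 - 1 / 10000000 : ℝ) ≤
        4 * Y * X ^ (-(1 / 4 * (1 / 10000000)) : ℝ) * (pd S : ℝ)⁻¹ := by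
      have hZt1 : (1 : ℝ) ≤ (2 : ℝ) ^ i := one_le_pow₀ (by norm_num)
      have hZm1 : (1 : ℝ) ≤ (2 : ℝ) ^ j := one_le_pow₀ (by norm_num)
      have h1 : ((2 : ℝ) ^ i) ^ (1 / 4 : ℝ) ≤ ((2 : ℝ) ^ i) ^ (1 - 1 / 10000000 : ℝ) :=
        Real.rpow_le_rpow_of_exponent_le hZt1 (by norm_num)
      set Z : ℝ := (2 : ℝ) ^ i * (2 : ℝ) ^ j with hZ
      have hZpos : 0 < Z := by positivity
      have h2 : ((2 : ℝ) ^ i) ^ (1 - 1 / 10000000 : ℝ) *
          ((2 : ℝ) ^ j) ^ (1 - 1 / 10000000 : ℝ) = Z * Z ^ (-(1 / 10000000) : ℝ) := by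
        rw [← Real.mul_rpow (by positivity) (by positivity), ← hZ]
        have e1 : (1 - 1 / 10000000 : ℝ) = 1 + (-(1 / 10000000)) := by ring
        rw [e1, Real.rpow_add hZpos, Real.rpow_one]
      have h3 : at' * am' = pd ((f₀.1 ∪ f₀.2).filter fun p => ¬ Pr p) := by
        rw [hat, ham]
        exact pd_split_rc _ _
      have h4 : pd S * pd ((f₀.1 ∪ f₀.2).filter fun p => ¬ Pr p) = pd (f₀.1 ∪ f₀.2) := by
        rw [← h0S]
        exact pd_split_rc _ _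
      have hpS : (0 : ℝ) < (pd S : ℝ) := by
        exact_mod_cast hpdpos f₀ h0F S hSsub
      have h5 : Z * pd S ≤ 4 * Y := by
        have e1 : Z ≤ 4 * ((at' * am' : ℕ) : ℝ) := by
          rw [hZ]
          push_cast
          calc (2 : ℝ) ^ i * (2 : ℝ) ^ j ≤ (2 * at') * (2 * am') :=
                mul_le_mul hZt2 hZm2 (by positivity) (by positivity)
            _ = 4 * ((at' : ℝ) * am') := by ring
        have e2 : ((pd S * (at' * am') : ℕ) : ℝ) ≤ Y := by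
          rw [h3, h4]
          exact (hF f₀ h0F).2.2.1
        push_cast at e1 e2
        calc Z * pd S ≤ (4 * ((at' : ℝ) * am')) * pd S :=
              mul_le_mul_of_nonneg_right e1 hpS.le
          _ = 4 * ((pd S : ℝ) * (at' * am')) := by ring
          _ ≤ 4 * Y := by linarith
      have h6 : X ^ (1 / 4 : ℝ) ≤ Z := by
        have e1 := (hF f₀ h0F).2.2.2.1
        have e2 : ((pd ((f₀.1 ∪ f₀.2).filter fun p => ¬ Pr p) : ℕ) : ℝ) ≤ Z := by
          rw [← h3, hZ]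
          push_cast
          have a1 : (at' : ℝ) ≤ (2 : ℝ) ^ i := by
            rw [← h0i]
            exact_mod_cast (clog_rc hat1).1
          have a2 : (am' : ℝ) ≤ (2 : ℝ) ^ j := by
            rw [← h0j]
            exact_mod_cast (clog_rc ham1).1
          exact mul_le_mul a1 a2 (by positivity) (by positivity)
        exact e1.trans e2
      have h7 : Z ^ (-(1 / 10000000) : ℝ) ≤ X ^ (-(1 / 4 * (1 / 10000000)) : ℝ) := by
        have e1 : X ^ (-(1 / 4 * (1 / 10000000)) : ℝ) =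
            (X ^ (1 / 4 : ℝ)) ^ (-(1 / 10000000) : ℝ) := by
          rw [← Real.rpow_mul hX0.le]
          congr 1
          ring
        rw [e1]
        exact Real.rpow_le_rpow_of_nonpos (by positivity) h6 (by norm_num)
      have h8 : Z ≤ 4 * Y * (pd S : ℝ)⁻¹ := by
        rw [← div_eq_mul_inv, le_div_iff₀ hpS]
        exact h5
      calc ((2 : ℝ) ^ i) ^ (1 / 4 : ℝ) * ((2 : ℝ) ^ j) ^ (1 - 1 / 10000000 : ℝ)
          ≤ ((2 : ℝ) ^ i) ^ (1 - 1 / 10000000 : ℝ) *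
            ((2 : ℝ) ^ j) ^ (1 - 1 / 10000000 : ℝ) :=
            mul_le_mul_of_nonneg_right h1 (by positivity)
        _ = Z * Z ^ (-(1 / 10000000) : ℝ) := h2
        _ ≤ (4 * Y * (pd S : ℝ)⁻¹) * X ^ (-(1 / 4 * (1 / 10000000)) : ℝ) :=
            mul_le_mul h8 h7 (by positivity) (by positivity)
        _ = 4 * Y * X ^ (-(1 / 4 * (1 / 10000000)) : ℝ) * (pd S : ℝ)⁻¹ := by ring
    calc (Φ.card : ℝ) ≤ X ^ ρ * (𝓡.card : ℝ) := ha
      _ ≤ X ^ ρ * (X ^ η * ((2 : ℝ) ^ i) ^ (1 / 4 : ℝ) *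
        ((2 : ℝ) ^ j) ^ (1 - 1 / 10000000 : ℝ)) :=
          mul_le_mul_of_nonneg_left hb (by positivity)
      _ = X ^ ρ * X ^ η * (((2 : ℝ) ^ i) ^ (1 / 4 : ℝ) *
        ((2 : ℝ) ^ j) ^ (1 - 1 / 10000000 : ℝ)) := by ring
      _ ≤ X ^ ρ * X ^ η * (4 * Y * X ^ (-(1 / 4 * (1 / 10000000)) : ℝ) * (pd S : ℝ)⁻¹) :=
          mul_le_mul_of_nonneg_left hc (by positivity)
      _ = _ := by ring

theorem opt2_rc {K₁ ρ₁ X₁ : ℝ}
    (hRO : ∀ (X ℓ Zb Zc : ℝ) (q e Bd : ℕ) (S : Finset ℕ) (F : Finset (Finset ℕ × Finset ℕ)),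
      X₁ ≤ X → K₁ * Real.log (Real.log X) ≤ ℓ → ℓ ≤ 30 * Real.log X → q.Prime → (q : ℝ) ≤ X →
      (Bd : ℝ) ≤ Real.exp (2 * ℓ) → Real.exp (ℓ / 2) ≤ (e : ℝ) → (∀ p ∈ S, p.Prime ∧ p ≠ q) →
      (S.card : ℝ) * Real.log (Real.log X) ≤ ρ₁ * Real.log X → 1 ≤ Zb → 1 ≤ Zc →
      Zb * Zc ≤ X →
      (∀ f ∈ F, Disjoint f.1 f.2 ∧ Disjoint S (f.1 ∪ f.2) ∧
        (∀ p ∈ f.1 ∪ f.2, p.Prime ∧ p ≠ q ∧ Real.exp (100 * ℓ) < (p : ℝ)) ∧
        (pd f.1 : ℝ) ≤ Zb ∧ (pd f.2 : ℝ) ≤ Zc ∧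
        ∃ α γ β : ℕ → ℕ, (∀ p, α p ≤ Bd ∧ γ p ≤ Bd) ∧
          (∀ p ∈ f.1 ∪ f.2, 1 ≤ β p ∧ β p ≤ Bd) ∧
          ((∏ p ∈ S, p ^ α p) * ∏ p ∈ f.1, p ^ β p) ^ 2 ≡
            ((∏ p ∈ S, p ^ γ p) * ∏ p ∈ f.2, p ^ β p) ^ 2 [MOD q ^ e]) →
      (F.card : ℝ) ≤ X ^ (1 / 20 : ℝ) * (Zb * Zc) ^ (1 / 2 : ℝ))
    {X ℓ Y ρ : ℝ} {q e Bd : ℕ} (hX₁ : X₁ ≤ X) (hX1 : 1 ≤ X) (hll : 1 ≤ Real.log (Real.log X))
    (hK : K₁ * Real.log (Real.log X) ≤ ℓ) (hℓ : ℓ ≤ 30 * Real.log X) (hq : q.Prime)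
    (hqX : (q : ℝ) ≤ X) (hBd : (Bd : ℝ) ≤ Real.exp (2 * ℓ))
    (he : Real.exp (ℓ / 2) ≤ (e : ℝ)) (hρ : ρ ≤ ρ₁) (hY0 : 0 ≤ Y) (hY : 4 * Y ≤ X)
    (F : Finset (Finset ℕ × Finset ℕ))
    (hF : ∀ f ∈ F, Disjoint f.1 f.2 ∧ (∀ p ∈ f.1 ∪ f.2, p.Prime ∧ p ≠ q ∧ (p : ℝ) ≤ X) ∧
      (pd (f.1 ∪ f.2) : ℝ) ≤ Y ∧
      X ^ (1 / 4 : ℝ) ≤ (pd ((f.1 ∪ f.2).filter fun p =>
        ¬ (p : ℝ) ≤ Real.exp (100 * ℓ)) : ℝ) ∧
      ((f.1 ∪ f.2).card : ℝ) * Real.log (Real.log X) ≤ ρ * Real.log X ∧ RP q e Bd f.1 f.2) :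
    (F.card : ℝ) ≤ ((⌊2 * Real.log X⌋₊ + 2 : ℕ) : ℝ) * ((⌊2 * Real.log X⌋₊ + 2 : ℕ) : ℝ) *
      (X ^ ρ * X ^ (1 / 20 : ℝ) * (4 * Y * X ^ (-(1 / 8) : ℝ)) * (1 + Real.log X)) := by
  classical
  have hX0 : 0 < X := by linarith
  set Pr : ℕ → Prop := fun p => (p : ℝ) ≤ Real.exp (100 * ℓ) with hPr
  have hprime : ∀ f ∈ F, ∀ p ∈ f.1 ∪ f.2, p.Prime := fun f hf p hp => ((hF f hf).2.1 p hp).1
  have hpdle : ∀ f ∈ F, ∀ T : Finset ℕ, T ⊆ f.1 ∪ f.2 → (pd T : ℝ) ≤ Y := by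
    intro f hf T hT
    have h1 := pd_mono_rc (hprime f hf) hT
    have h2 : (pd T : ℝ) ≤ (pd (f.1 ∪ f.2) : ℝ) := by exact_mod_cast h1
    exact h2.trans (hF f hf).2.2.1
  have hpdpos : ∀ f ∈ F, ∀ T : Finset ℕ, T ⊆ f.1 ∪ f.2 → 1 ≤ pd T := by
    intro f hf T hT
    exact pd_pos_rc (fun p hp => hprime f hf p (hT hp))
  have hsub1 : ∀ f : Finset ℕ × Finset ℕ, (f.1 ∪ f.2).filter Pr ⊆ f.1 ∪ f.2 :=
    fun f => Finset.filter_subset _ _
  have hsub3 : ∀ f : Finset ℕ × Finset ℕ, (f.1.filter fun p => ¬ Pr p) ⊆ f.1 ∪ f.2 :=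
    fun f => (Finset.filter_subset _ _).trans Finset.subset_union_left
  have hsub4 : ∀ f : Finset ℕ × Finset ℕ, (f.2.filter fun p => ¬ Pr p) ⊆ f.1 ∪ f.2 :=
    fun f => (Finset.filter_subset _ _).trans Finset.subset_union_right
  have hYX : Y ≤ X := by linarith
  apply part_rc hX1 (by positivity) (⌊2 * Real.log X⌋₊ + 2) F
    (fun f => (f.1 ∪ f.2).filter Pr)
    (fun f => Nat.clog 2 (pd (f.1.filter fun p => ¬ Pr p)))
    (fun f => Nat.clog 2 (pd (f.2.filter fun p => ¬ Pr p)))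
  · intro f hf
    refine ⟨fun p hp => hprime f hf p (hsub1 f hp), (hpdle f hf _ (hsub1 f)).trans hYX, ?_, ?_⟩
    · exact clog_lt_rc hX1 (hpdpos f hf _ (hsub3 f)) ((hpdle f hf _ (hsub3 f)).trans hYX)
    · exact clog_lt_rc hX1 (hpdpos f hf _ (hsub4 f)) ((hpdle f hf _ (hsub4 f)).trans hYX)
  · intro S i j
    set Φ := F.filter (fun f => (f.1 ∪ f.2).filter Pr = S ∧
      Nat.clog 2 (pd (f.1.filter fun p => ¬ Pr p)) = i ∧
      Nat.clog 2 (pd (f.2.filter fun p => ¬ Pr p)) = j) with hΦ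
    rcases Φ.eq_empty_or_nonempty with hemp | hne
    · rw [hemp, Finset.card_empty]
      have : (0 : ℝ) ≤ X ^ ρ * X ^ (1 / 20 : ℝ) * (4 * Y * X ^ (-(1 / 8) : ℝ)) *
          (pd S : ℝ)⁻¹ := by positivity
      simpa using this
    obtain ⟨f₀, hf₀⟩ := hne
    have hm : ∀ f ∈ Φ, f ∈ F ∧ (f.1 ∪ f.2).filter Pr = S ∧
        Nat.clog 2 (pd (f.1.filter fun p => ¬ Pr p)) = i ∧
        Nat.clog 2 (pd (f.2.filter fun p => ¬ Pr p)) = j :=
      fun f hf => Finset.mem_filter.1 hf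
    obtain ⟨h0F, h0S, h0i, h0j⟩ := hm f₀ hf₀
    have hlogX : 0 ≤ Real.log X := Real.log_nonneg hX1
    have hSsub : S ⊆ f₀.1 ∪ f₀.2 := by rw [← h0S]; exact hsub1 f₀
    have hcardle : ∀ f ∈ F, ∀ T : Finset ℕ, T ⊆ f.1 ∪ f.2 →
        (T.card : ℝ) * Real.log (Real.log X) ≤ ρ * Real.log X := by
      intro f hf T hT
      have h1 : (T.card : ℝ) ≤ ((f.1 ∪ f.2).card : ℝ) := by
        exact_mod_cast Finset.card_le_card hT
      exact (mul_le_mul_of_nonneg_right h1 (by linarith)).trans (hF f hf).2.2.2.2.1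
    set at' := pd (f₀.1.filter fun p => ¬ Pr p) with hat
    set am' := pd (f₀.2.filter fun p => ¬ Pr p) with ham
    have hat1 : 1 ≤ at' := hpdpos f₀ h0F _ (hsub3 f₀)
    have ham1 : 1 ≤ am' := hpdpos f₀ h0F _ (hsub4 f₀)
    have hZt2 : ((2 : ℝ)) ^ i ≤ 2 * at' := by
      rw [← h0i]
      exact_mod_cast (clog_rc hat1).2
    have hZm2 : ((2 : ℝ)) ^ j ≤ 2 * am' := by
      rw [← h0j]
      exact_mod_cast (clog_rc ham1).2
    have h3 : at' * am' = pd ((f₀.1 ∪ f₀.2).filter fun p => ¬ Pr p) := by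
      rw [Finset.filter_union]
      have hdd : Disjoint (f₀.1.filter fun p => ¬ Pr p) (f₀.2.filter fun p => ¬ Pr p) :=
        Finset.disjoint_filter_filter (hF f₀ h0F).1
      rw [hat, ham]
      unfold pd
      rw [Finset.prod_union hdd]
    have h4 : pd S * pd ((f₀.1 ∪ f₀.2).filter fun p => ¬ Pr p) = pd (f₀.1 ∪ f₀.2) := by
      rw [← h0S]
      exact pd_split_rc _ _
    have hpS : (0 : ℝ) < (pd S : ℝ) := by
      exact_mod_cast hpdpos f₀ h0F S hSsub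
    set Z : ℝ := (2 : ℝ) ^ i * (2 : ℝ) ^ j with hZ
    have hZpos : 0 < Z := by positivity
    have h5 : Z * pd S ≤ 4 * Y := by
      have e1 : Z ≤ 4 * ((at' * am' : ℕ) : ℝ) := by
        rw [hZ]
        push_cast
        calc (2 : ℝ) ^ i * (2 : ℝ) ^ j ≤ (2 * at') * (2 * am') :=
              mul_le_mul hZt2 hZm2 (by positivity) (by positivity)
          _ = 4 * ((at' : ℝ) * am') := by ring
      have e2 : ((pd S * (at' * am') : ℕ) : ℝ) ≤ Y := by
        rw [h3, h4]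
        exact (hF f₀ h0F).2.2.1
      push_cast at e1 e2
      calc Z * pd S ≤ (4 * ((at' : ℝ) * am')) * pd S :=
            mul_le_mul_of_nonneg_right e1 hpS.le
        _ = 4 * ((pd S : ℝ) * (at' * am')) := by ring
        _ ≤ 4 * Y := by linarith
    have hZX : Z ≤ X := by
      have h1 : (1 : ℝ) ≤ (pd S : ℝ) := by
        exact_mod_cast hpdpos f₀ h0F S hSsub
      have h2 : Z * 1 ≤ Z * pd S := mul_le_mul_of_nonneg_left h1 hZpos.le
      linarith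
    have h6 : X ^ (1 / 4 : ℝ) ≤ Z := by
      have e1 := (hF f₀ h0F).2.2.2.1
      have e2 : ((pd ((f₀.1 ∪ f₀.2).filter fun p => ¬ Pr p) : ℕ) : ℝ) ≤ Z := by
        rw [← h3, hZ]
        push_cast
        have a1 : (at' : ℝ) ≤ (2 : ℝ) ^ i := by
          rw [← h0i]
          exact_mod_cast (clog_rc hat1).1
        have a2 : (am' : ℝ) ≤ (2 : ℝ) ^ j := by
          rw [← h0j]
          exact_mod_cast (clog_rc ham1).1
        exact mul_le_mul a1 a2 (by positivity) (by positivity)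
      exact e1.trans e2
    have hc : Z ^ (1 / 2 : ℝ) ≤ 4 * Y * X ^ (-(1 / 8) : ℝ) * (pd S : ℝ)⁻¹ := by
      have e0 : Z ^ (1 / 2 : ℝ) = Z * Z ^ (-(1 / 2) : ℝ) := by
        have e1 : (1 / 2 : ℝ) = 1 + (-(1 / 2)) := by ring
        rw [e1, Real.rpow_add hZpos, Real.rpow_one]
        norm_num
      have h7 : Z ^ (-(1 / 2) : ℝ) ≤ X ^ (-(1 / 8) : ℝ) := by
        have e1 : X ^ (-(1 / 8) : ℝ) = (X ^ (1 / 4 : ℝ)) ^ (-(1 / 2) : ℝ) := by
          rw [← Real.rpow_mul hX0.le]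
          congr 1
          ring
        rw [e1]
        exact Real.rpow_le_rpow_of_nonpos (by positivity) h6 (by norm_num)
      have h8 : Z ≤ 4 * Y * (pd S : ℝ)⁻¹ := by
        rw [← div_eq_mul_inv, le_div_iff₀ hpS]
        exact h5
      rw [e0]
      calc Z * Z ^ (-(1 / 2) : ℝ) ≤ (4 * Y * (pd S : ℝ)⁻¹) * X ^ (-(1 / 8) : ℝ) :=
            mul_le_mul h8 h7 (by positivity) (by positivity)
        _ = 4 * Y * X ^ (-(1 / 8) : ℝ) * (pd S : ℝ)⁻¹ := by ring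
    -- the fibres
    set W : ℝ := X ^ (1 / 20 : ℝ) * Z ^ (1 / 2 : ℝ) with hW
    have hWnn : 0 ≤ W := by positivity
    have hfib : (Φ.card : ℝ) ≤ (2 : ℝ) ^ S.card * W := by
      have h1 := Finset.card_le_mul_card_image_of_maps_to
        (f := fun f : Finset ℕ × Finset ℕ => f.1.filter Pr) (s := Φ) (t := S.powerset) (by
          intro f hf
          obtain ⟨_, hfS, _, _⟩ := hm f hf
          rw [Finset.mem_powerset, ← hfS]
          exact Finset.filter_subset_filter _ Finset.subset_union_left) ⌊W⌋₊ (by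
        intro Sb _
        set Ψ := Φ.filter (fun f => f.1.filter Pr = Sb) with hΨ
        have hmΨ : ∀ f ∈ Ψ, f ∈ Φ ∧ f.1.filter Pr = Sb := fun f hf => Finset.mem_filter.1 hf
        set 𝓟 := Ψ.image (fun f : Finset ℕ × Finset ℕ =>
          ((f.1.filter fun p => ¬ Pr p), (f.2.filter fun p => ¬ Pr p))) with h𝓟
        have hinj : Ψ.card ≤ 𝓟.card := by
          rw [h𝓟, Finset.card_image_of_injOn]
          intro f hf g hg hfg
          obtain ⟨hfΦ, hfb⟩ := hmΨ f hf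
          obtain ⟨hgΦ, hgb⟩ := hmΨ g hg
          obtain ⟨hfF, hfS, _, _⟩ := hm f hfΦ
          obtain ⟨hgF, hgS, _, _⟩ := hm g hgΦ
          have hfg1 := (Prod.ext_iff.1 hfg).1
          have hfg2 := (Prod.ext_iff.1 hfg).2
          simp only at hfg1 hfg2
          have e1 : f.1 = g.1 := by
            rw [← Finset.filter_union_filter_not_eq Pr f.1,
              ← Finset.filter_union_filter_not_eq Pr g.1, hfb, hgb, hfg1]
          have e2 : f.2.filter Pr = g.2.filter Pr := by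
            have a1 : f.2.filter Pr = S \ Sb := by
              rw [← hfS, ← hfb, Finset.filter_union,
                Finset.union_sdiff_cancel_left (Finset.disjoint_filter_filter (hF f hfF).1)]
            have a2 : g.2.filter Pr = S \ Sb := by
              rw [← hgS, ← hgb, Finset.filter_union,
                Finset.union_sdiff_cancel_left (Finset.disjoint_filter_filter (hF g hgF).1)]
            rw [a1, a2]
          have e3 : f.2 = g.2 := by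
            rw [← Finset.filter_union_filter_not_eq Pr f.2,
              ← Finset.filter_union_filter_not_eq Pr g.2, e2, hfg2]
          exact Prod.ext e1 e3
        refine hinj.trans (Nat.le_floor ?_)
        rw [hW, hZ]
        apply hRO X ℓ ((2 : ℝ) ^ i) ((2 : ℝ) ^ j) q e Bd S 𝓟 hX₁ hK hℓ hq hqX hBd he
        · intro p hp
          have := (hF f₀ h0F).2.1 p (hSsub hp)
          exact ⟨this.1, this.2.1⟩
        · exact (hcardle f₀ h0F S hSsub).trans (mul_le_mul_of_nonneg_right hρ hlogX)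
        · exact one_le_pow₀ (by norm_num)
        · exact one_le_pow₀ (by norm_num)
        · exact hZX
        · intro t ht
          obtain ⟨f, hf, rfl⟩ := Finset.mem_image.1 ht
          obtain ⟨hfΦ, hfb⟩ := hmΨ f hf
          obtain ⟨hfF, hfS, hfi, hfj⟩ := hm f hfΦ
          refine ⟨Finset.disjoint_filter_filter (hF f hfF).1, ?_, ?_, ?_, ?_, ?_⟩
          · show Disjoint S ((f.1.filter fun p => ¬ Pr p) ∪ (f.2.filter fun p => ¬ Pr p))
            rw [← hfS, ← Finset.filter_union]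
            exact Finset.disjoint_filter_filter_not _ _ _
          · intro p hp
            have hp' : p ∈ (f.1 ∪ f.2).filter fun p => ¬ Pr p := by
              rw [Finset.filter_union]
              exact hp
            rw [Finset.mem_filter] at hp'
            obtain ⟨a1, a2, _⟩ := (hF f hfF).2.1 p hp'.1
            exact ⟨a1, a2, not_le.1 hp'.2⟩
          · have h1 := (clog_rc (hpdpos f hfF _ (hsub3 f))).1
            rw [hfi] at h1
            exact_mod_cast h1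
          · have h1 := (clog_rc (hpdpos f hfF _ (hsub4 f))).1
            rw [hfj] at h1
            exact_mod_cast h1
          · have h1 := rel_rc Pr (hF f hfF).1 (hF f hfF).2.2.2.2.2
            rw [hfS] at h1
            exact h1)
      rw [Finset.card_powerset] at h1
      have h2 : (Φ.card : ℝ) ≤ (⌊W⌋₊ : ℝ) * (2 : ℝ) ^ S.card := by exact_mod_cast h1
      refine h2.trans ?_
      rw [mul_comm]
      apply mul_le_mul_of_nonneg_left (Nat.floor_le hWnn) (by positivity)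
    have h2S : (2 : ℝ) ^ S.card ≤ X ^ ρ := two_pow_rc hll hX0 (hcardle f₀ h0F S hSsub)
    calc (Φ.card : ℝ) ≤ (2 : ℝ) ^ S.card * W := hfib
      _ ≤ X ^ ρ * W := mul_le_mul_of_nonneg_right h2S hWnn
      _ = X ^ ρ * X ^ (1 / 20 : ℝ) * Z ^ (1 / 2 : ℝ) := by rw [hW]; ring
      _ ≤ X ^ ρ * X ^ (1 / 20 : ℝ) * (4 * Y * X ^ (-(1 / 8) : ℝ) * (pd S : ℝ)⁻¹) :=
          mul_le_mul_of_nonneg_left hc (by positivity)
      _ = _ := by ring

theorem ev_rc : ∃ X₀ : ℝ, 2 ≤ X₀ ∧ ∀ X : ℝ, X₀ ≤ X → 1 ≤ Real.log (Real.log X) ∧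
    4 * X ^ (2 / 3 + 1 / 100000000 : ℝ) ≤ X ∧
    512 * Real.log X ^ 3 ≤ X ^ (1 / 1000000000 : ℝ) ∧ 2 ≤ Real.log X := by
  have h1 : ∀ᶠ X : ℝ in Filter.atTop, 1 ≤ Real.log (Real.log X) :=
    (Real.tendsto_log_atTop.comp Real.tendsto_log_atTop).eventually_ge_atTop 1
  have h2 : ∀ᶠ X : ℝ in Filter.atTop, 4 ≤ X ^ (1 / 4 : ℝ) :=
    (tendsto_rpow_atTop (by norm_num : (0 : ℝ) < 1 / 4)).eventually_ge_atTop 4
  have h3 : ∀ᶠ X : ℝ in Filter.atTop, 512 * Real.log X ^ 3 ≤ X ^ (1 / 1000000000 : ℝ) := by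
    have h4 := isLittleO_log_rpow_rpow_atTop (3 : ℝ) (by norm_num : (0 : ℝ) < 1 / 1000000000)
    have h5 := h4.def (by norm_num : (0 : ℝ) < 1 / 512)
    filter_upwards [h5, Filter.eventually_ge_atTop (1 : ℝ)] with X hX hX1
    have hl : 0 ≤ Real.log X := Real.log_nonneg hX1
    rw [Real.norm_of_nonneg (by positivity), Real.norm_of_nonneg (by positivity)] at hX
    have e1 : Real.log X ^ (3 : ℝ) = Real.log X ^ 3 := by
      exact_mod_cast Real.rpow_natCast (Real.log X) 3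
    rw [e1] at hX
    linarith
  have h6 : ∀ᶠ X : ℝ in Filter.atTop, 2 ≤ Real.log X :=
    Real.tendsto_log_atTop.eventually_ge_atTop 2
  obtain ⟨X₀, hX₀⟩ := Filter.eventually_atTop.1 ((h1.and h2).and (h3.and h6))
  refine ⟨max 2 X₀, le_max_left _ _, fun X hX => ?_⟩
  have hX2 : 2 ≤ X := (le_max_left _ _).trans hX
  obtain ⟨⟨a1, a2⟩, a3, a4⟩ := hX₀ X ((le_max_right _ _).trans hX)
  refine ⟨a1, ?_, a3, a4⟩
  have hX0 : 0 < X := by linarith
  have e1 : X ^ (2 / 3 + 1 / 100000000 : ℝ) ≤ X ^ (3 / 4 : ℝ) :=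
    Real.rpow_le_rpow_of_exponent_le (by linarith) (by norm_num)
  have e2 : X = X ^ (1 / 4 : ℝ) * X ^ (3 / 4 : ℝ) := by
    rw [← Real.rpow_add hX0]
    norm_num
  calc 4 * X ^ (2 / 3 + 1 / 100000000 : ℝ) ≤ 4 * X ^ (3 / 4 : ℝ) := by linarith
    _ ≤ X ^ (1 / 4 : ℝ) * X ^ (3 / 4 : ℝ) := mul_le_mul_of_nonneg_right a2 (by positivity)
    _ = X := e2.symm

theorem num_rc {X a : ℝ} (hX : 1 ≤ X) (hl : 2 ≤ Real.log X)
    (h3 : 512 * Real.log X ^ 3 ≤ X ^ (1 / 1000000000 : ℝ))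
    (ha : a ≤ 2 / 3 - 1 / 100000000 - 1 / 1000000000) :
    ((⌊2 * Real.log X⌋₊ + 2 : ℕ) : ℝ) * ((⌊2 * Real.log X⌋₊ + 2 : ℕ) : ℝ) *
      (4 * X ^ a * (1 + Real.log X)) ≤ X ^ (2 / 3 - 1 / 100000000 : ℝ) / 2 := by
  have hX0 : 0 < X := by linarith
  have h1 : ((⌊2 * Real.log X⌋₊ + 2 : ℕ) : ℝ) ≤ 4 * Real.log X := by
    push_cast
    have := Nat.floor_le (by linarith : (0 : ℝ) ≤ 2 * Real.log X)
    linarith
  have h2 : 1 + Real.log X ≤ 2 * Real.log X := by linarith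
  have h4 : X ^ a ≤ X ^ (2 / 3 - 1 / 100000000 - 1 / 1000000000 : ℝ) :=
    Real.rpow_le_rpow_of_exponent_le hX ha
  have e1 : X ^ (2 / 3 - 1 / 100000000 : ℝ) =
      X ^ (1 / 1000000000 : ℝ) * X ^ (2 / 3 - 1 / 100000000 - 1 / 1000000000 : ℝ) := by
    rw [← Real.rpow_add hX0]
    congr 1
    ring
  have hp : 0 ≤ X ^ (2 / 3 - 1 / 100000000 - 1 / 1000000000 : ℝ) := by positivity
  calc ((⌊2 * Real.log X⌋₊ + 2 : ℕ) : ℝ) * ((⌊2 * Real.log X⌋₊ + 2 : ℕ) : ℝ) *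
      (4 * X ^ a * (1 + Real.log X))
      ≤ (4 * Real.log X) * (4 * Real.log X) *
        (4 * X ^ (2 / 3 - 1 / 100000000 - 1 / 1000000000 : ℝ) * (2 * Real.log X)) := by
        apply mul_le_mul
        · exact mul_le_mul h1 h1 (Nat.cast_nonneg _) (by linarith)
        · exact mul_le_mul (by linarith) h2 (by linarith) (by linarith)
        · positivity
        · positivity
    _ = (128 * Real.log X ^ 3) * X ^ (2 / 3 - 1 / 100000000 - 1 / 1000000000 : ℝ) := by ring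
    _ ≤ (X ^ (1 / 1000000000 : ℝ) / 2) *
        X ^ (2 / 3 - 1 / 100000000 - 1 / 1000000000 : ℝ) := by
        apply mul_le_mul_of_nonneg_right _ hp
        have : 0 ≤ Real.log X ^ 3 := by positivity
        linarith
    _ = X ^ (2 / 3 - 1 / 100000000 : ℝ) / 2 := by rw [e1]; ring

theorem pf_RC (hRO1 : T_RO1) (hRO2 : T_RO2) : T_RC := by
  classical
  obtain ⟨K₁, ρ₁, X₁, hK₁, hρ₁, hX₁, hA⟩ := hRO1 (1 / 1000000000) (by norm_num)
  obtain ⟨K₂, ρ₂, X₂, hK₂, hρ₂, hX₂, hB⟩ := hRO2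
  obtain ⟨X₃, hX₃, hev⟩ := ev_rc
  refine ⟨1 / 100000000, max K₁ K₂, min (min ρ₁ ρ₂) (1 / 1000000000), max (max X₁ X₂) X₃,
    by norm_num, by norm_num, le_max_of_le_left hK₁, by positivity,
    le_max_of_le_right hX₃, ?_⟩
  intro X ℓ q e Bd F hX hK hℓ hq hqX hBd1 hBd he hF
  have hX1' : X₁ ≤ X := (le_max_left _ _).trans ((le_max_left _ _).trans hX)
  have hX2' : X₂ ≤ X := (le_max_right _ _).trans ((le_max_left _ _).trans hX)
  obtain ⟨hll, hY4, h512, hl2⟩ := hev X ((le_max_right _ _).trans hX)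
  have hX2 : 2 ≤ X := hX₁.trans hX1'
  have hX0 : 0 < X := by linarith
  have hXone : 1 ≤ X := by linarith
  have hK1' : K₁ * Real.log (Real.log X) ≤ ℓ :=
    (mul_le_mul_of_nonneg_right (le_max_left _ _) (by linarith)).trans hK
  have hK2' : K₂ * Real.log (Real.log X) ≤ ℓ :=
    (mul_le_mul_of_nonneg_right (le_max_right _ _) (by linarith)).trans hK
  set ρ := min (min ρ₁ ρ₂) (1 / 1000000000) with hρ
  have hr1 : ρ ≤ ρ₁ := (min_le_left _ _).trans (min_le_left _ _)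
  have hr2 : ρ ≤ ρ₂ := (min_le_left _ _).trans (min_le_right _ _)
  have hr3 : ρ ≤ 1 / 1000000000 := min_le_right _ _
  have hBd62 : (Bd : ℝ) ≤ X ^ 62 := by
    have e1 : Real.exp (2 * ℓ) ≤ Real.exp (60 * Real.log X) :=
      Real.exp_le_exp.2 (by linarith)
    have e2 : Real.exp (60 * Real.log X) = X ^ 60 := by
      have := Real.exp_nat_mul (Real.log X) 60
      rw [Real.exp_log hX0] at this
      exact_mod_cast this
    rw [e2] at e1
    exact hBd.trans (e1.trans (pow_le_pow_right₀ hXone (by norm_num)))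
  set Y := X ^ (2 / 3 + 1 / 100000000 : ℝ) with hY
  have hY0 : 0 ≤ Y := by positivity
  -- the two cases
  set F₁ := F.filter (fun f => X ^ (1 / 4 : ℝ) ≤ (pd ((f.1 ∪ f.2).filter fun p =>
        ¬ ((p : ℝ) ≤ Real.log X ^ 30 ∨ Real.exp (100 * ℓ) < (p : ℝ))) : ℝ)) with hF₁
  set F₂ := F.filter (fun f => X ^ (1 / 4 : ℝ) ≤ (pd ((f.1 ∪ f.2).filter fun p =>
        ¬ (p : ℝ) ≤ Real.exp (100 * ℓ)) : ℝ)) with hF₂
  have hcov : F ⊆ F₁ ∪ F₂ := by
    intro f hf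
    obtain ⟨hd, hpr, hle, hge, hsm, hcard, hrel⟩ := hF f hf
    by_contra hcon
    rw [Finset.mem_union, not_or, hF₁, hF₂, Finset.mem_filter, Finset.mem_filter, not_and,
      not_and] at hcon
    have h1 := not_le.1 (hcon.1 hf)
    have h2 := not_le.1 (hcon.2 hf)
    set R := f.1 ∪ f.2 with hR
    have hprR : ∀ p ∈ R, p.Prime := fun p hp => (hpr p hp).1
    set P1 : ℕ → Prop := fun p => (p : ℝ) ≤ Real.log X ^ 30 ∨ Real.exp (100 * ℓ) < (p : ℝ)
      with hP1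
    have e1 : pd (R.filter P1) * pd (R.filter fun p => ¬ P1 p) = pd R := pd_split_rc _ _
    have e2 : pd ((R.filter P1).filter fun p => (p : ℝ) ≤ Real.log X ^ 30) *
        pd ((R.filter P1).filter fun p => ¬ (p : ℝ) ≤ Real.log X ^ 30) = pd (R.filter P1) :=
      pd_split_rc _ _
    have e3 : pd ((R.filter P1).filter fun p => (p : ℝ) ≤ Real.log X ^ 30) ≤
        pd (R.filter fun p => (p : ℝ) ≤ Real.log X ^ 30) := by
      apply pd_mono_rc (fun p hp => hprR p (Finset.mem_filter.1 hp).1)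
      intro p hp
      rw [Finset.mem_filter, Finset.mem_filter] at hp
      rw [Finset.mem_filter]
      exact ⟨hp.1.1, hp.2⟩
    have e4 : pd ((R.filter P1).filter fun p => ¬ (p : ℝ) ≤ Real.log X ^ 30) ≤
        pd (R.filter fun p => ¬ (p : ℝ) ≤ Real.exp (100 * ℓ)) := by
      apply pd_mono_rc (fun p hp => hprR p (Finset.mem_filter.1 hp).1)
      intro p hp
      rw [Finset.mem_filter, Finset.mem_filter] at hp
      rw [Finset.mem_filter]
      refine ⟨hp.1.1, ?_⟩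
      rcases hp.1.2 with h | h
      · exact absurd h hp.2
      · exact not_le.2 h
    have e5 : ((pd R : ℕ) : ℝ) ≤ (pd (R.filter fun p => (p : ℝ) ≤ Real.log X ^ 30) : ℝ) *
        (pd (R.filter fun p => ¬ (p : ℝ) ≤ Real.exp (100 * ℓ)) : ℝ) *
        (pd (R.filter fun p => ¬ P1 p) : ℝ) := by
      have h5 : pd R ≤ (pd (R.filter fun p => (p : ℝ) ≤ Real.log X ^ 30) *
        pd (R.filter fun p => ¬ (p : ℝ) ≤ Real.exp (100 * ℓ))) *
        pd (R.filter fun p => ¬ P1 p) := by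
        rw [← e1, ← e2]
        exact Nat.mul_le_mul_right _ (Nat.mul_le_mul e3 e4)
      exact_mod_cast h5
    have e6 : ((pd R : ℕ) : ℝ) ≤ X ^ (1 / 100 : ℝ) * X ^ (1 / 4 : ℝ) * X ^ (1 / 4 : ℝ) := by
      refine e5.trans ?_
      apply mul_le_mul _ h1.le (Nat.cast_nonneg _) (by positivity)
      exact mul_le_mul hsm h2.le (Nat.cast_nonneg _) (by positivity)
    have e7 : X ^ (1 / 100 : ℝ) * X ^ (1 / 4 : ℝ) * X ^ (1 / 4 : ℝ) < X ^ (3 / 5 : ℝ) := by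
      rw [← Real.rpow_add hX0, ← Real.rpow_add hX0]
      exact Real.rpow_lt_rpow_of_exponent_lt (by linarith) (by norm_num)
    linarith
  have hc1 := opt1_rc hA hX1' hXone hll hK1' hℓ hq hqX hBd1 hBd62 he hr1
    (hr3.trans (by norm_num)) hY0 (by linarith) F₁ (by
      intro f hf
      rw [hF₁, Finset.mem_filter] at hf
      obtain ⟨hd, hpr, hle, hge, hsm, hcard, hrel⟩ := hF f hf.1
      exact ⟨hd, hpr, hle, hf.2, hcard, hrel⟩)
  have hc2 := opt2_rc hB hX2' hXone hll hK2' hℓ hq hqX hBd he hr2 hY0 hY4 F₂ (by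
      intro f hf
      rw [hF₂, Finset.mem_filter] at hf
      obtain ⟨hd, hpr, hle, hge, hsm, hcard, hrel⟩ := hF f hf.1
      exact ⟨hd, hpr, hle, hf.2, hcard, hrel⟩)
  have g1 : X ^ ρ * X ^ (1 / 1000000000 : ℝ) *
      (4 * Y * X ^ (-(1 / 4 * (1 / 10000000)) : ℝ)) =
      4 * X ^ (ρ + 1 / 1000000000 + (2 / 3 + 1 / 100000000) + (-(1 / 4 * (1 / 10000000))) : ℝ)
      := by
    rw [Real.rpow_add hX0, Real.rpow_add hX0, Real.rpow_add hX0]
    ring
  have g2 : X ^ ρ * X ^ (1 / 20 : ℝ) * (4 * Y * X ^ (-(1 / 8) : ℝ)) =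
      4 * X ^ (ρ + 1 / 20 + (2 / 3 + 1 / 100000000) + (-(1 / 8)) : ℝ) := by
    rw [Real.rpow_add hX0, Real.rpow_add hX0, Real.rpow_add hX0]
    ring
  rw [g1] at hc1
  rw [g2] at hc2
  have n1 := num_rc (a := ρ + 1 / 1000000000 + (2 / 3 + 1 / 100000000) +
    (-(1 / 4 * (1 / 10000000)))) hXone hl2 h512 (by linarith)
  have n2 := num_rc (a := ρ + 1 / 20 + (2 / 3 + 1 / 100000000) + (-(1 / 8)))
    hXone hl2 h512 (by linarith)
  have hcard : (F.card : ℝ) ≤ (F₁.card : ℝ) + (F₂.card : ℝ) := by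
    have := (Finset.card_le_card hcov).trans (Finset.card_union_le F₁ F₂)
    exact_mod_cast this
  linarith

end Pool.Agent.H99.AG
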