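import Pool.Agent.H38.AG.Targets
import Pool.Agent.H99.AG.MATcore

set_option autoImplicit false

open Pool.Agent.H38.RB Pool.Agent.H38.PS Pool.Agent.H82.RD Pool.Agent.H38.AB Pool.Agent.H38.AG

namespace Pool.Agent.H99.AG

theorem pf_MSP : T_MSP := by
  intro ι _ _ E F hF
  exact supp_count_mat E (Module.finrank ℚ E) le_rfl F hF

end Pool.Agent.H99.AG
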